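import Pool.Agent.H35.FS.Stm

/-!
# The degree inequality, with weights
-/

set_option autoImplicit false

namespace Pool.Agent.H35.FS

open Finset
open Pool.Agent.H35.FC (IsCode Facts Tiles gf SGf)

section
variable {α : Type} [DecidableEq α]

/-- the substitution `x ↦ X ^ ω x` -/
private noncomputable def dsub (ω : α → ℕ) : MvPolynomial α ℤ →+* Polynomial ℤ :=
  MvPolynomial.eval₂Hom Polynomial.C (fun x => Polynomial.X ^ ω x)

private lemma dsub_X (ω : α → ℕ) (x : α) :
    dsub ω (MvPolynomial.X x) = Polynomial.X ^ ω x := by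
  simp [dsub]

private lemma dsub_word (ω : α → ℕ) (w : List α) :
    dsub ω ((w.map MvPolynomial.X).prod) = Polynomial.X ^ (deg ω w) := by
  induction w with
  | nil => simp [deg]
  | cons x w ih =>
    rw [List.map_cons, List.prod_cons, map_mul, ih, dsub_X, deg_cons, pow_add]

/-- weight enumerator of a finite set of words -/
private noncomputable def dpol (ω : α → ℕ) (L : Finset (List α)) : Polynomial ℤ :=
  ∑ w ∈ L, Polynomial.X ^ (deg ω w)

private lemma dsub_gf (ω : α → ℕ) (L : Finset (List α)) : dsub ω (gf L) = dpol ω L := by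
  unfold gf dpol
  rw [map_sum]
  exact Finset.sum_congr rfl fun w _ => dsub_word ω w

private lemma dpol_coeff (ω : α → ℕ) (L : Finset (List α)) (k : ℕ) :
    (dpol ω L).coeff k = ((L.filter (fun w => deg ω w = k)).card : ℤ) := by
  unfold dpol
  rw [Polynomial.finsetSum_coeff, Finset.card_filter]
  push_cast
  refine Finset.sum_congr rfl fun w _ => ?_
  rw [Polynomial.coeff_X_pow]
  by_cases h : k = deg ω w
  · simp [h]
  · rw [if_neg h, if_neg (fun h' => h h'.symm)]

private lemma dpol_mul_coeff (ω : α → ℕ) (L M : Finset (List α)) (k : ℕ) :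
    (dpol ω L * dpol ω M).coeff k =
      (((L ×ˢ M).filter (fun t => deg ω t.1 + deg ω t.2 = k)).card : ℤ) := by
  unfold dpol
  rw [Finset.sum_mul_sum, ← Finset.sum_product', Polynomial.finsetSum_coeff, Finset.card_filter]
  push_cast
  refine Finset.sum_congr rfl fun t _ => ?_
  rw [← pow_add, Polynomial.coeff_X_pow]
  by_cases h : k = deg ω t.1 + deg ω t.2
  · simp [h]
  · rw [if_neg h, if_neg (fun h' => h h'.symm)]

end

/-- Row 5: the degree inequality. -/
theorem degP : SGf → SDeg := by
  intro hgf α _ _ C S P N ω b hb hC hT u hu c hc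
  by_contra hcon
  push Not at hcon
  -- the main identity
  have hE := congrArg (dsub ω) (hgf α C S P N hC hT)
  obtain ⟨sp, hsp⟩ : ∃ sp, sp = dsub ω (∑ x : α, (MvPolynomial.X x : MvPolynomial α ℤ)) :=
    ⟨_, rfl⟩
  have hs : sp = ∑ x : α, (Polynomial.X : Polynomial ℤ) ^ ω x := by
    rw [hsp, map_sum]
    exact Finset.sum_congr rfl fun x _ => dsub_X ω x
  rw [map_sub, map_one, map_mul, map_sub, map_one, ← hsp, map_add, map_mul, map_mul, map_sub,
    map_one, dsub_gf, dsub_gf, dsub_gf, dsub_gf] at hE
  obtain ⟨W, hW⟩ : ∃ W, W = dpol ω N - dpol ω C * dpol ω N + dpol ω S * dpol ω P := ⟨_, rfl⟩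
  have hE2 : 1 - dpol ω C = (1 - sp) * W := by
    rw [hW, hE]
    ring
  have hspb : (1 - sp).coeff (ω b) ≠ 0 := by
    rw [Polynomial.coeff_sub, Polynomial.coeff_one, if_neg hb, hs, Polynomial.finsetSum_coeff]
    have h1 : (0 : ℤ) < ∑ x : α, ((Polynomial.X : Polynomial ℤ) ^ ω x).coeff (ω b) := by
      refine Finset.sum_pos' (fun x _ => ?_) ⟨b, mem_univ b, ?_⟩
      · rw [Polynomial.coeff_X_pow]
        split_ifs <;> norm_num
      · rw [Polynomial.coeff_X_pow, if_pos rfl]
        norm_num
    linarith
  have hsp0 : (1 - sp) ≠ 0 := by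
    intro h
    rw [h] at hspb
    exact hspb (Polynomial.coeff_zero _)
  have hspd : 1 ≤ (1 - sp).natDegree :=
    le_trans (by omega) (Polynomial.le_natDegree_of_ne_zero hspb)
  -- maximal degrees
  obtain ⟨c0, hc0, hcmax⟩ := Finset.exists_max_image C (deg ω) ⟨c, hc⟩
  obtain ⟨u0, hu0, humax⟩ := Finset.exists_max_image N (deg ω) ⟨u, hu⟩
  set D := deg ω c0 + deg ω u0 with hD
  have hcu : deg ω c + deg ω u ≤ D := by
    have := hcmax c hc
    have := humax u hu
    omega
  have hCd : (1 - dpol ω C).natDegree ≤ deg ω c0 := by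
    rw [Polynomial.natDegree_le_iff_coeff_eq_zero]
    intro k hk
    rw [Polynomial.coeff_sub, Polynomial.coeff_one, if_neg (by omega), dpol_coeff]
    have h1 : (C.filter (fun w => deg ω w = k)).card = 0 := by
      rw [Finset.card_eq_zero, Finset.filter_eq_empty_iff]
      intro w hw
      have := hcmax w hw
      omega
    rw [h1]
    simp
  have hkey : W ≠ 0 → W.natDegree + 1 ≤ deg ω c0 := by
    intro hne
    have h1 := hCd
    rw [hE2, Polynomial.natDegree_mul hsp0 hne] at h1
    omega
  by_cases hd : 1 ≤ deg ω c0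
  · have hWD : W.coeff D ≠ 0 := by
      rw [hW, Polynomial.coeff_add, Polynomial.coeff_sub, dpol_coeff, dpol_mul_coeff,
        dpol_mul_coeff]
      have h1 : (N.filter (fun w => deg ω w = D)).card = 0 := by
        rw [Finset.card_eq_zero, Finset.filter_eq_empty_iff]
        intro w hw
        have := humax w hw
        omega
      have h2 : ((S ×ˢ P).filter (fun t => deg ω t.1 + deg ω t.2 = D)).card = 0 := by
        rw [Finset.card_eq_zero, Finset.filter_eq_empty_iff]
        intro t ht
        rw [Finset.mem_product] at ht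
        have := hcon t.1 ht.1 t.2 ht.2
        omega
      have h3 : 0 < ((C ×ˢ N).filter (fun t => deg ω t.1 + deg ω t.2 = D)).card :=
        Finset.card_pos.2 ⟨(c0, u0), Finset.mem_filter.2 ⟨Finset.mem_product.2 ⟨hc0, hu0⟩, rfl⟩⟩
      rw [h1, h2]
      push_cast
      have h3' : (0 : ℤ) < (((C ×ˢ N).filter (fun t => deg ω t.1 + deg ω t.2 = D)).card : ℤ) := by
        exact_mod_cast h3
      intro h4
      linarith
    have h5 := Polynomial.le_natDegree_of_ne_zero hWD
    have h6 : W ≠ 0 := by
      intro h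
      rw [h] at hWD
      exact hWD (Polynomial.coeff_zero _)
    have := hkey h6
    omega
  · -- all codewords have weight zero
    have hW0 : W = 0 := by
      by_contra hne
      have := hkey hne
      omega
    have h9 : dpol ω C = 1 := by
      rw [hW0, mul_zero] at hE2
      linear_combination -hE2
    have h11 : dpol ω S * dpol ω P = 0 := by
      rw [h9, hW0] at hW
      linear_combination -hW
    have hemp : ∀ s ∈ S, ∀ p ∈ P, False := by
      intro s hs' p hp
      have h12 := congrArg (fun q => Polynomial.coeff q (deg ω s + deg ω p)) h11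
      simp only [Polynomial.coeff_zero] at h12
      rw [dpol_mul_coeff] at h12
      have h13 : 0 < ((S ×ˢ P).filter
          (fun t => deg ω t.1 + deg ω t.2 = deg ω s + deg ω p)).card :=
        Finset.card_pos.2 ⟨(s, p), Finset.mem_filter.2 ⟨Finset.mem_product.2 ⟨hs', hp⟩, rfl⟩⟩
      have h14 : ((S ×ˢ P).filter
          (fun t => deg ω t.1 + deg ω t.2 = deg ω s + deg ω p)).card = 0 := by
        exact_mod_cast h12
      omega
    -- every word is in `N`
    have hall : ∀ w : List α, w ∈ N := by
      intro w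
      by_contra hw
      obtain ⟨t, ht, -⟩ := (hT w).2 (fun h => hw (by exact_mod_cast h))
      exact hemp t.1 (by exact_mod_cast ht.1) t.2.2 (by exact_mod_cast ht.2.2.1)
    have : Nonempty α := ⟨b⟩
    exact (Set.infinite_univ (α := List α)) (N.finite_toSet.subset fun w _ => hall w)

end Pool.Agent.H35.FS
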