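import Pool.Agent.H35.FS.Stm

/-!
# Maximal codes are complete
-/

set_option autoImplicit false

namespace Pool.Agent.H35.FS

open Pool.Agent.H35.FC (IsCode)

section
variable {α : Type} {C : Set (List α)}

private lemma max_nil_mem : ([] : List α) ∈ FC.Star C := ⟨[], by simp, rfl⟩

private lemma max_mem_star {c : List α} (h : c ∈ C) : c ∈ FC.Star C :=
  ⟨[c], by simpa using h, by simp⟩

private lemma max_append {u v : List α} (hu : u ∈ FC.Star C) (hv : v ∈ FC.Star C) :
    u ++ v ∈ FC.Star C := by
  obtain ⟨L, hL, rfl⟩ := hu
  obtain ⟨M, hM, rfl⟩ := hv
  refine ⟨L ++ M, ?_, by simp⟩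
  intro c hc
  rcases List.mem_append.1 hc with h | h
  · exact hL c h
  · exact hM c h

/-- The word `w y ^ |w|` is unbordered if `w` begins with `x ≠ y`. -/
private lemma max_unbordered {x y : α} (hxy : x ≠ y) (w' : List α) (t s v : List α)
    (hv : v = (x :: w') ++ List.replicate (x :: w').length y)
    (h : v = t ++ s) (hp : s <+: v) (ht : t ≠ []) (hs : s ≠ []) : False := by
  have hlv : v.length = 2 * (w'.length + 1) := by
    rw [hv, List.length_append, List.length_replicate, List.length_cons]; ring
  have hls : t.length + s.length = 2 * (w'.length + 1) := by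
    rw [← List.length_append, ← h, hlv]
  have htpos : 0 < t.length := List.length_pos_of_ne_nil ht
  have hspos : 0 < s.length := List.length_pos_of_ne_nil hs
  have hper : ∀ i, i < s.length → v[i + t.length]? = v[i]? := by
    intro i hi
    obtain ⟨r, hr⟩ := hp
    have h1 : v[i + t.length]? = s[i]? := by
      rw [h, List.getElem?_append_right (by omega)]
      congr 1
      omega
    have h2 : v[i]? = s[i]? := by
      rw [← hr, List.getElem?_append_left hi]
    rw [h1, h2]
  have h0 : v[0]? = some x := by rw [hv]; rfl
  have hy : ∀ k, w'.length + 1 ≤ k → k < 2 * (w'.length + 1) → v[k]? = some y := by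
    intro k h1 h2
    rw [hv, List.getElem?_append_right (by simpa using h1), List.getElem?_replicate]
    simp only [List.length_cons]
    rw [if_pos (by omega)]
  rcases Nat.lt_or_ge t.length (w'.length + 1) with hlt | hge
  · have hall : ∀ n k, 2 * (w'.length + 1) - k ≤ n → k < 2 * (w'.length + 1) →
        v[k]? = some y := by
      intro n
      induction n with
      | zero => intro k h1 h2; omega
      | succ n ih =>
        intro k h1 h2
        by_cases hk : w'.length + 1 ≤ k
        · exact hy k hk h2
        · rw [← hper k (by omega)]
          exact ih _ (by omega) (by omega)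
    have h1 := hall _ 0 le_rfl (by omega)
    rw [h0] at h1
    exact hxy (Option.some.inj h1)
  · have h1 := hper 0 hspos
    rw [h0, zero_add, hy _ hge (by omega)] at h1
    exact hxy (Option.some.inj h1).symm

/-- First occurrence of an element in a list. -/
private lemma max_first {v : List α} (L : List (List α)) (hL : ∀ c ∈ L, c ∈ insert v C)
    (h : ¬ ∀ c ∈ L, c ∈ C) :
    ∃ L1 L2 : List (List α), L = L1 ++ v :: L2 ∧ (∀ c ∈ L1, c ∈ C) ∧
      ∀ c ∈ L2, c ∈ insert v C := by
  induction L with
  | nil => exact absurd (by simp) h
  | cons c L ih =>
    have hL' : ∀ d ∈ L, d ∈ insert v C := fun d hd => hL d (by simp [hd])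
    by_cases hc : c ∈ C
    · obtain ⟨L1, L2, h1, h2, h3⟩ := ih hL' (by
        intro h4
        refine h ?_
        intro d hd
        rcases List.mem_cons.1 hd with rfl | h5
        · exact hc
        · exact h4 d h5)
      refine ⟨c :: L1, L2, by rw [h1]; rfl, ?_, h3⟩
      intro d hd
      rcases List.mem_cons.1 hd with rfl | h5
      · exact hc
      · exact h2 d h5
    · rcases hL c (by simp) with rfl | h4
      · exact ⟨[], L, rfl, by simp, hL'⟩
      · exact absurd h4 hc

/-- Two first occurrences of `v` coincide. -/
private lemma max_pos {v : List α} (hfac : ∀ s t : List α, s ++ (v ++ t) ∉ FC.Star C)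
    (hunb : ∀ t s : List α, v = t ++ s → s <+: v → t ≠ [] → s ≠ [] → False)
    {p q r r' : List α} (hq : q ∈ FC.Star C)
    (h : p ++ (v ++ r) = q ++ (v ++ r')) (hle : p.length ≤ q.length) : p = q := by
  rw [List.append_eq_append_iff] at h
  have key : ∃ t, q = p ++ t ∧ v ++ r = t ++ (v ++ r') := by
    rcases h with h | ⟨t, h1, h2⟩
    · exact h
    · have h3 : t = [] := by
        have := congrArg List.length h1
        rw [List.length_append] at this
        exact List.length_eq_zero_iff.1 (by omega)
      subst h3
      exact ⟨[], by simpa using h1.symm, by simpa using h2.symm⟩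
  obtain ⟨t, h1, h2⟩ := key
  by_cases ht : t = []
  · subst ht
    simpa using h1.symm
  exfalso
  rw [List.append_eq_append_iff] at h2
  rcases h2 with ⟨s, h3, -⟩ | ⟨s, h3, h4⟩
  · -- `t = v ++ s`
    refine hfac p s ?_
    rw [← h3, ← h1]
    exact hq
  · -- `v = t ++ s`
    by_cases hs : s = []
    · subst hs
      refine hfac p [] ?_
      have h5 : v = t := by simpa using h3
      rw [h5, List.append_nil, ← h1]
      exact hq
    · refine hunb t s h3 ?_ ht hs
      have h5 : s <+: v ++ r' := ⟨r, h4.symm⟩
      have h6 : v <+: v ++ r' := ⟨r', rfl⟩
      refine List.prefix_of_prefix_length_le h5 h6 ?_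
      rw [h3, List.length_append]
      omega

/-- Adding an unbordered word which is not a factor of the submonoid gives a code. -/
private lemma max_code {v : List α} (hC : IsCode C) (hv : v ≠ [])
    (hfac : ∀ s t : List α, s ++ (v ++ t) ∉ FC.Star C)
    (hunb : ∀ t s : List α, v = t ++ s → s <+: v → t ≠ [] → s ≠ [] → False) :
    IsCode (insert v C) := by
  refine ⟨?_, ?_⟩
  · rintro (h | h)
    · exact hv h.symm
    · exact hC.1 h
  have main : ∀ n : ℕ, ∀ L M : List (List α), L.length ≤ n → (∀ c ∈ L, c ∈ insert v C) →
      (∀ c ∈ M, c ∈ insert v C) → L.flatten = M.flatten → L = M := by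
    intro n
    induction n with
    | zero =>
      intro L M h1 h2 h3 h4
      have h5 : L = [] := List.length_eq_zero_iff.1 (by omega)
      subst h5
      cases M with
      | nil => rfl
      | cons c M =>
        exfalso
        rw [List.flatten_nil, List.flatten_cons] at h4
        have h5 : c = [] := (List.append_eq_nil_iff.1 h4.symm).1
        rcases h3 c (by simp) with h | h
        · exact hv (h ▸ h5)
        · exact hC.1 (h5 ▸ h)
    | succ n ih =>
      intro L M h1 h2 h3 h4
      by_cases hLC : ∀ c ∈ L, c ∈ C
      · by_cases hMC : ∀ c ∈ M, c ∈ C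
        · exact hC.2 L M hLC hMC h4
        · exfalso
          obtain ⟨M1, M2, h5, -, -⟩ := max_first M h3 hMC
          refine hfac M1.flatten M2.flatten ?_
          refine ⟨L, hLC, ?_⟩
          rw [h4, h5, List.flatten_append, List.flatten_cons]
      · obtain ⟨L1, L2, h5, h6, h7⟩ := max_first L h2 hLC
        by_cases hMC : ∀ c ∈ M, c ∈ C
        · exfalso
          refine hfac L1.flatten L2.flatten ?_
          refine ⟨M, hMC, ?_⟩
          rw [← h4, h5, List.flatten_append, List.flatten_cons]
        · obtain ⟨M1, M2, h8, h9, h10⟩ := max_first M h3 hMC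
          rw [h5, h8, List.flatten_append, List.flatten_cons, List.flatten_append,
            List.flatten_cons] at h4
          have h11 : L1.flatten = M1.flatten := by
            rcases le_total L1.flatten.length M1.flatten.length with hle | hle
            · exact max_pos hfac hunb ⟨M1, h9, rfl⟩ h4 hle
            · exact (max_pos hfac hunb ⟨L1, h6, rfl⟩ h4.symm hle).symm
          have h12 : L1 = M1 := hC.2 L1 M1 h6 h9 h11
          rw [h11] at h4
          have h13 : L2.flatten = M2.flatten :=
            List.append_cancel_left (List.append_cancel_left h4)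
          have h14 : L2 = M2 := by
            refine ih L2 M2 ?_ h7 h10 h13
            have := congrArg List.length h5
            rw [List.length_append, List.length_cons] at this
            omega
          rw [h5, h8, h12, h14]
  intro L M h2 h3 h4
  exact main L.length L M le_rfl h2 h3 h4

end


/-- **Maximal codes are complete.** -/
theorem maxP : SMax := by
  intro α _ _ C hC hmax w
  by_cases h2 : ∃ a b : α, a ≠ b
  · obtain ⟨a, b, hab⟩ := h2
    by_contra hcon
    push Not at hcon
    cases w with
    | nil => exact hcon [] [] (by simpa using max_nil_mem)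
    | cons x w' =>
      obtain ⟨y, hy⟩ : ∃ y, x ≠ y := by
        by_cases hx : x = a
        · exact ⟨b, fun h => hab (hx.symm.trans h)⟩
        · exact ⟨a, hx⟩
      obtain ⟨v, hv⟩ : ∃ v, v = (x :: w') ++ List.replicate (x :: w').length y := ⟨_, rfl⟩
      have hv0 : v ≠ [] := by rw [hv]; simp
      have hfac : ∀ s t : List α, s ++ (v ++ t) ∉ FC.Star C := by
        intro s t h
        refine hcon s (List.replicate (x :: w').length y ++ t) ?_
        rw [← List.append_assoc (x :: w'), ← hv]
        exact h
      have hcode : IsCode (insert v C) := max_code hC hv0 hfac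
        fun t s h1 h2 h3 h4 => max_unbordered hy w' t s v hv h1 h2 h3 h4
      have h1 : insert v C = C := hmax _ hcode (Set.subset_insert _ _)
      have h2 : v ∈ C := h1 ▸ Set.mem_insert v C
      refine hfac [] [] ?_
      simpa using max_mem_star h2
  · push Not at h2
    cases w with
    | nil => exact ⟨[], [], by simpa using max_nil_mem⟩
    | cons a w' =>
      -- there is a codeword
      obtain ⟨c, hc⟩ : ∃ c, c ∈ C := by
        by_contra hcon
        push Not at hcon
        have hcode : IsCode ({[a]} : Set (List α)) := by
          refine ⟨by simp, ?_⟩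
          intro L M hL hM h
          have hL' : L = List.replicate L.length [a] := List.eq_replicate_of_mem hL
          have hM' : M = List.replicate M.length [a] := List.eq_replicate_of_mem hM
          have h3 : L.flatten.length = M.flatten.length := by rw [h]
          rw [hL', hM'] at h3
          simp at h3
          rw [hL', hM', h3]
        have h1 := hmax _ hcode (fun c hc => absurd hc (hcon c))
        exact hcon [a] (h1 ▸ rfl)
      have hcn : c ≠ [] := fun h => hC.1 (h ▸ hc)
      have hk : 0 < c.length := List.length_pos_iff.2 hcn
      have hrep : ∀ v : List α, v = List.replicate v.length a :=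
        fun v => List.eq_replicate_of_mem fun b _ => h2 b a
      have hst : ∀ n : ℕ, (List.replicate n c).flatten ∈ FC.Star C := fun n =>
        ⟨List.replicate n c, fun d hd => by rw [List.eq_of_mem_replicate hd]; exact hc, rfl⟩
      obtain ⟨n, hn⟩ : ∃ n, n = (a :: w').length := ⟨_, rfl⟩
      refine ⟨[], List.replicate (n * c.length - n) a, ?_⟩
      have h3 : [] ++ ((a :: w') ++ List.replicate (n * c.length - n) a) =
          (List.replicate n c).flatten := by
        rw [hrep ([] ++ ((a :: w') ++ List.replicate (n * c.length - n) a)),
          hrep (List.replicate n c).flatten]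
        congr 1
        have h4 : n ≤ n * c.length := Nat.le_mul_of_pos_right n hk
        simp only [List.nil_append, List.length_append, ← hn, List.length_replicate,
          List.length_flatten, List.map_replicate, List.sum_replicate, smul_eq_mul]
        omega
      rw [h3]
      exact hst n

end Pool.Agent.H35.FS
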