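import Pool.Agent.H35.FS.Ctx
import Pool.Agent.H35.FC.Asm

/-!
# Assembly
-/

set_option autoImplicit false

namespace Pool.Agent.H35.FS

open Pool.Agent.H35.FC (IsCode IsPrefixCode Facts Tiles star_nil star_append star_of_mem split cut
  SGf STree of_tiles)

theorem all_letters {α : Type} [DecidableEq α] (C : Finset (List α))
    (hC : IsCode (C : Set (List α))) (hall : ∀ x : α, [x] ∈ C) :
    ∃ D : Finset (List α), IsPrefixCode (D : Set (List α)) ∧
      ∃ F : List α → List α, Set.BijOn F C D ∧ ∀ w ∈ C, (F w).Perm w := by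
  have h1 : ∀ w ∈ C, w.length = 1 := by
    intro w hw
    have hf : (w.map fun x => [x]).flatten = w := by
      clear hw
      induction w with
      | nil => rfl
      | cons x w ih =>
        rw [List.map_cons, List.flatten_cons, ih]
        rfl
    have h3 : [w] = w.map fun x => [x] := by
      refine hC.2 _ _ (by simpa using hw) ?_ ?_
      · intro c hc
        obtain ⟨x, -, rfl⟩ := List.mem_map.1 hc
        exact_mod_cast hall x
      · rw [hf]
        simp
    have h4 := congrArg List.length h3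
    simpa using h4.symm
  refine ⟨C, ⟨hC.1, fun u hu v hv huv => ?_⟩, id, Set.bijOn_id _, fun w _ => List.Perm.refl _⟩
  exact huv.eq_of_length (by rw [h1 u (by exact_mod_cast hu), h1 v (by exact_mod_cast hv)])

/-- A synchronizing pair of a complete code gives contexts. -/
theorem setup_of_sync {α : Type} {C : Set (List α)} (hfin : C.Finite) (hC : IsCode C)
    (hcomp : ∀ w : List α, ∃ u v, u ++ (w ++ v) ∈ FC.Star C) {x y c : List α}
    (hx : x ∈ FC.Star C) (hy : y ∈ FC.Star C) (hc : c ∈ C)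
    (hs : ∀ u v, u ++ x ++ y ++ v ∈ FC.Star C → u ++ x ∈ FC.Star C ∧ y ++ v ∈ FC.Star C) :
    Setup C (c ++ y) (x ++ c) := by
  have hcn : c ≠ [] := fun h => hC.1 (h ▸ hc)
  refine ⟨hfin, hC, star_append (star_of_mem hc) hy, star_append hx (star_of_mem hc),
    by simp [hcn], by simp [hcn], fun w => ?_⟩
  obtain ⟨u, v, h⟩ := hcomp (x ++ (y ++ (w ++ (x ++ y))))
  have h1 := (hs u (w ++ (x ++ (y ++ v))) (by simpa only [List.append_assoc] using h)).2
  have h2 := (hs (y ++ w) v (by simpa only [List.append_assoc] using h1)).1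
  have h3 := star_append (star_append (star_of_mem hc) h2) (star_of_mem hc)
  simpa only [List.append_assoc] using h3

theorem assembly (hMax : SMax) (hGf : SGf) (hTree : STree) (hCore : SCore) (hDich : SDich)
    (hEnd : SEnd) (hRev : SRev) {α : Type} [Fintype α] [DecidableEq α] (C : Finset (List α))
    (hC : IsCode (C : Set (List α)))
    (hmax : ∀ D : Set (List α), IsCode D → (C : Set (List α)) ⊆ D → D = C)
    (hs : ∃ x ∈ FC.Star (C : Set (List α)), ∃ y ∈ FC.Star (C : Set (List α)), ∀ u v,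
      u ++ x ++ y ++ v ∈ FC.Star (C : Set (List α)) →
        u ++ x ∈ FC.Star (C : Set (List α)) ∧ y ++ v ∈ FC.Star (C : Set (List α)))
    (ω : α → ℕ) (m : ℕ) (hm : 1 ≤ m) (hω : ∀ x, m ≤ ω x ∨ (ω x = 0 ∧ [x] ∈ C)) (y : α)
    (h5 : ∀ w ∈ C, (w.map ω).sum ≤ 3 * m + 2 * ω y) :
    ∃ D : Finset (List α), IsPrefixCode (D : Set (List α)) ∧
      ∃ F : List α → List α, Set.BijOn F C D ∧ ∀ w ∈ C, (F w).Perm w := by
  by_cases hb : ∃ b : α, ω b ≠ 0
  · obtain ⟨z, hz, hyz⟩ : ∃ z : α, ω z ≠ 0 ∧ ω y ≤ ω z := by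
      by_cases hy : ω y = 0
      · obtain ⟨b, hb⟩ := hb
        exact ⟨b, hb, by omega⟩
      · exact ⟨y, hy, le_rfl⟩
    have hW : Wt (C : Set (List α)) ω m := by
      refine ⟨hm, fun x => ?_⟩
      rcases hω x with h | h
      · exact Or.inr h
      · exact Or.inl ⟨h.1, by exact_mod_cast h.2⟩
    have h5' : ∀ w ∈ (C : Set (List α)), deg ω w ≤ 3 * m + 2 * ω z := by
      intro w hw
      have h6 : deg ω w ≤ 3 * m + 2 * ω y := h5 w (by exact_mod_cast hw)
      omega
    have hcomp := hMax α C hC hmax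
    obtain ⟨c, hc⟩ : ∃ c, c ∈ (C : Set (List α)) := by
      obtain ⟨u, v, h⟩ := hcomp [y]
      obtain ⟨x, p, -, hp, -⟩ := st_last h (by simp)
      exact ⟨p, hp⟩
    obtain ⟨x0, hx0, y0, hy0, hsync⟩ := hs
    have hS := setup_of_sync C.finite_toSet hC hcomp hx0 hy0 hc hsync
    rcases hCore α C _ _ ω m z hz hW hS h5' with ⟨S, P, hSf, hPf, hT⟩ | hH
    · exact of_tiles hGf hTree C hC S P hSf hPf hT
    · rcases hDich α C _ _ ω m z _ hW hS hH with h1 | h2
      · obtain ⟨S, P, hSf, hPf, hT⟩ := hEnd α C _ _ ω m z _ hz hW hS hH h1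
        exact of_tiles hGf hTree C hC S P hSf hPf hT
      · obtain ⟨hS', hH', h3, h4⟩ := hRev α C _ _ ω m z _ hS hH
        have hW' : Wt (List.reverse '' (C : Set (List α))) ω m := by
          refine ⟨hm, fun x => ?_⟩
          rcases hW.2 x with h | h
          · exact Or.inl ⟨h.1, [x], h.2, rfl⟩
          · exact Or.inr h
        obtain ⟨S, P, hSf, hPf, hT⟩ := hEnd α _ _ _ ω m z _ hz hW' hS' hH' (h3 h2)
        exact of_tiles hGf hTree C hC _ _ (hPf.image _) (hSf.image _) (h4 S P hT)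
  · push Not at hb
    refine all_letters C hC fun x => ?_
    rcases hω x with h | h
    · have := hb x
      omega
    · exact h.2

end Pool.Agent.H35.FS
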