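import Pool.Agent.H35.FS.Ctx

/-!
# The degree arguments
-/

set_option autoImplicit false

namespace Pool.Agent.H35.FS

open Pool.Agent.H35.FC (IsCode Facts Tiles star_nil star_append star_of_mem split cut)

variable {α : Type} {C : Set (List α)} {l r : List α}

/-! ### One more letter in the context -/

theorem A_snoc {x : α} {g v : List α} (hv : v ∈ Aset C l (g ++ [x])) :
    x :: v ∈ Aset C l g ∨ (RC C l g ∧ x :: v ∈ C) := by
  obtain ⟨X, p, hX, hp, he, hc⟩ := hv
  rcases List.eq_nil_or_concat p with h | ⟨p', z, h⟩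
  · exact absurd h hp
  · rw [List.concat_eq_append] at h
    subst h
    have h1 : (l ++ g) ++ [x] = (X ++ p') ++ [z] := by
      simpa using he
    obtain ⟨h2, h3⟩ := List.append_inj' h1 rfl
    have h4 : x = z := by simpa using h3
    subst h4
    rcases eq_or_ne p' [] with h5 | h5
    · subst h5
      right
      refine ⟨?_, by simpa using hc⟩
      rw [RC, h2, List.append_nil]
      exact hX
    · left
      exact ⟨X, p', hX, h5, h2, by simpa using hc⟩

theorem B_cons {x : α} {f v : List α} (hv : v ∈ Bset C r (x :: f)) :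
    v ++ [x] ∈ Bset C r f ∨ (LC C r f ∧ v ++ [x] ∈ C) := by
  obtain ⟨s, y, hy, hs, he, hc⟩ := hv
  cases s with
  | nil => exact absurd rfl hs
  | cons z s' =>
    have h1 : x :: (f ++ r) = z :: (s' ++ y) := by
      simpa using he
    obtain ⟨h2, h3⟩ := List.cons.inj h1
    subst h2
    rcases eq_or_ne s' [] with h5 | h5
    · subst h5
      right
      refine ⟨?_, by simpa using hc⟩
      rw [LC, h3, List.nil_append]
      exact hy
    · left
      exact ⟨s', y, hy, h5, h3, by simpa using hc⟩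

theorem deg_snoc (ω : α → ℕ) (b : α) (v : List α) : deg ω (v ++ [b]) = deg ω v + ω b := by
  rw [deg_append, deg_cons]
  rfl

theorem A_deg {ω : α → ℕ} {b : α} {d : ℕ} (hd : ∀ c ∈ C, deg ω c ≤ d) {g v : List α}
    (hv : v ∈ Aset C l (g ++ [b])) : ω b + deg ω v ≤ d := by
  rcases A_snoc hv with h | ⟨-, h⟩
  · obtain ⟨X, p, -, -, -, hc⟩ := h
    have h1 := hd _ hc
    rw [deg_append, deg_cons] at h1
    omega
  · have h1 := hd _ h
    rwa [deg_cons] at h1

theorem B_deg {ω : α → ℕ} {b : α} {d : ℕ} (hd : ∀ c ∈ C, deg ω c ≤ d) {f v : List α}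
    (hv : v ∈ Bset C r (b :: f)) : ω b + deg ω v ≤ d := by
  rcases B_cons hv with h | ⟨-, h⟩
  · obtain ⟨s, y, -, -, -, hc⟩ := h
    have h1 := hd _ hc
    rw [deg_append, deg_snoc] at h1
    omega
  · have h1 := hd _ h
    rw [deg_snoc] at h1
    omega

theorem last_letter {ω : α → ℕ} {w : List α} (h : deg ω w ≠ 0) :
    ∃ (u : List α) (b : α) (t : List α), ω b ≠ 0 ∧ deg ω t = 0 ∧ w = u ++ b :: t := by
  induction w using List.reverseRecOn with
  | nil => exact absurd rfl h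
  | append_singleton w x ih =>
    by_cases hx : ω x = 0
    · have h1 : deg ω w ≠ 0 := by
        intro h2
        apply h
        rw [deg_snoc, h2, hx]
      obtain ⟨u, b, t, hb, ht, rfl⟩ := ih h1
      refine ⟨u, b, t ++ [x], hb, ?_, by simp⟩
      rw [deg_snoc, ht, hx]
    · exact ⟨w, x, [], hx, rfl, rfl⟩

theorem first_letter {ω : α → ℕ} {w : List α} (h : deg ω w ≠ 0) :
    ∃ (u : List α) (b : α) (t : List α), ω b ≠ 0 ∧ deg ω t = 0 ∧ w = t ++ b :: u := by
  induction w with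
  | nil => exact absurd rfl h
  | cons x w ih =>
    by_cases hx : ω x = 0
    · have h1 : deg ω w ≠ 0 := by
        intro h2
        apply h
        rw [deg_cons, h2, hx]
      obtain ⟨u, b, t, hb, ht, rfl⟩ := ih h1
      refine ⟨u, b, x :: t, hb, ?_, by simp⟩
      rw [deg_cons, ht, hx]
    · exact ⟨w, x, [], hx, rfl, rfl⟩

/-- (P3) -/
theorem N_deg {ω : α → ℕ} {m : ℕ} (hW : Wt C ω m) (hS : Setup C l r) {g f : List α}
    (hr : RC C l g) (hl : LC C r f) {u : List α} (hu : u ∈ Nset C l r g f) : m ≤ deg ω u := by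
  apply le_deg hW
  intro h0
  exact ncut hS (u1 := u) (u2 := []) (by simpa using hu) (rc_star hr (star_of_deg hW h0)) hl

/-- If all contexts that end with a letter of positive weight are complete then one codeword
cannot meet both contexts. -/
theorem N_empty {ω : α → ℕ} {m : ℕ} (hW : Wt C ω m) (hS : Setup C l r)
    (hr : ∀ (g : List α) (b : α), ω b ≠ 0 → RC C l (g ++ [b])) : Nset C l r [] [] = ∅ := by
  rw [Set.eq_empty_iff_forall_notMem]
  intro u hu
  have hl0 : LC C r [] := by simpa [LC] using hS.rmem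
  have hr0 : RC C l [] := by simpa [RC] using hS.lmem
  refine ncut hS (g := []) (f := []) (u1 := u) (u2 := []) (by simpa using hu) ?_ hl0
  by_cases h0 : deg ω u = 0
  · exact rc_star hr0 (star_of_deg hW h0)
  · obtain ⟨u', b, t, hb, ht, rfl⟩ := last_letter h0
    have h1 := rc_star (hr u' b hb) (star_of_deg hW ht)
    simpa using h1

theorem N_empty' {ω : α → ℕ} {m : ℕ} (hW : Wt C ω m) (hS : Setup C l r)
    (hl : ∀ (f : List α) (b : α), ω b ≠ 0 → LC C r (b :: f)) : Nset C l r [] [] = ∅ := by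
  rw [Set.eq_empty_iff_forall_notMem]
  intro u hu
  have hl0 : LC C r [] := by simpa [LC] using hS.rmem
  have hr0 : RC C l [] := by simpa [RC] using hS.lmem
  refine ncut hS (g := []) (f := []) (u1 := []) (u2 := u) (by simpa using hu) hr0 ?_
  by_cases h0 : deg ω u = 0
  · exact lc_star (star_of_deg hW h0) hl0
  · obtain ⟨u', b, t, hb, ht, rfl⟩ := first_letter h0
    have h1 := lc_star (star_of_deg hW ht) (hl u' b hb)
    simpa using h1

/-- (F1) -/
theorem F1 {ω : α → ℕ} {m : ℕ} {y : α} (hW : Wt C ω m)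
    (hd : ∀ c ∈ C, deg ω c ≤ 3 * m + 2 * ω y) {g : List α} (hg : ¬ RC C l g) :
    g ++ [y] ∈ Gmin C l ω (2 * m + ω y) := by
  intro v hv
  rcases A_snoc hv with ⟨X, p, hX, hp, he, hc⟩ | ⟨h, -⟩
  · have h1 : m ≤ deg ω p := by
      apply le_deg hW
      intro h0
      apply hg
      rw [RC, he]
      exact star_append hX (star_of_deg hW h0)
    have h2 := hd _ hc
    rw [deg_append, deg_cons] at h2
    omega
  · exact absurd h hg

theorem F1' {ω : α → ℕ} {m : ℕ} {y : α} (hW : Wt C ω m)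
    (hd : ∀ c ∈ C, deg ω c ≤ 3 * m + 2 * ω y) {f : List α} (hf : ¬ LC C r f) :
    y :: f ∈ Fmin C r ω (2 * m + ω y) := by
  intro v hv
  rcases B_cons hv with ⟨s, z, hz, hs, he, hc⟩ | ⟨h, -⟩
  · have h1 : m ≤ deg ω s := by
      apply le_deg hW
      intro h0
      apply hf
      rw [LC, he]
      exact star_append (star_of_deg hW h0) hz
    have h2 := hd _ hc
    rw [deg_append, deg_snoc] at h2
    omega
  · exact absurd h hf

/-- A left context whose degree is minimal is complete. -/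
theorem min_rc {ω : α → ℕ} {y : α} (hy : ω y ≠ 0) (hS : Setup C l r) {k : ℕ}
    (hk : ∀ m < k, ¬ ∃ g, ∀ v ∈ Aset C l g, deg ω v ≤ m)
    {g : List α} (hg : ∀ v ∈ Aset C l g, deg ω v ≤ k) : RC C l g := by
  by_contra hr
  have h1 : ∀ v ∈ Aset C l (g ++ [y]), ω y + deg ω v ≤ k := by
    intro v hv
    rcases A_snoc hv with h | ⟨h, -⟩
    · have h2 := hg _ h
      rwa [deg_cons] at h2
    · exact absurd h hr
  obtain ⟨v0, hv0⟩ := aset_nonempty hS (g ++ [y])
  have h2 := h1 v0 hv0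
  refine hk (k - 1) (by omega) ⟨g ++ [y], fun v hv => ?_⟩
  have := h1 v hv
  omega

theorem min_lc {ω : α → ℕ} {y : α} (hy : ω y ≠ 0) (hS : Setup C l r) {k : ℕ}
    (hk : ∀ m < k, ¬ ∃ f, ∀ v ∈ Bset C r f, deg ω v ≤ m)
    {f : List α} (hf : ∀ v ∈ Bset C r f, deg ω v ≤ k) : LC C r f := by
  by_contra hr
  have h1 : ∀ v ∈ Bset C r (y :: f), ω y + deg ω v ≤ k := by
    intro v hv
    rcases B_cons hv with h | ⟨h, -⟩
    · have h2 := hf _ h
      rw [deg_snoc] at h2
      omega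
    · exact absurd h hr
  obtain ⟨v0, hv0⟩ := bset_nonempty hS (y :: f)
  have h2 := h1 v0 hv0
  refine hk (k - 1) (by omega) ⟨y :: f, fun v hv => ?_⟩
  have := h1 v hv
  omega

/-- two letters after a context which is not complete -/
theorem two_A {ω : α → ℕ} {m d : ℕ} (hW : Wt C ω m) (hS : Setup C l r)
    (hd : ∀ c ∈ C, deg ω c ≤ d) {g : List α} {b y : α} (hb : ω b ≠ 0)
    (hr : ¬ RC C l (g ++ [b])) :
    m + ω y ≤ d ∧ ∀ v ∈ Aset C l (g ++ [b] ++ [y]), deg ω v ≤ d - (m + ω y) := by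
  have hmb : m ≤ ω b := by
    rcases hW.2 b with h | h
    · exact absurd h.1 hb
    · exact h
  have h1 : ∀ v ∈ Aset C l (g ++ [b] ++ [y]), m + ω y + deg ω v ≤ d := by
    intro v hv
    rcases A_snoc hv with h | ⟨h, -⟩
    · have h2 := A_deg hd h
      rw [deg_cons] at h2
      omega
    · exact absurd h hr
  obtain ⟨v0, hv0⟩ := aset_nonempty hS (g ++ [b] ++ [y])
  have h2 := h1 v0 hv0
  refine ⟨by omega, fun v hv => ?_⟩
  have := h1 v hv
  omega

theorem two_B {ω : α → ℕ} {m d : ℕ} (hW : Wt C ω m) (hS : Setup C l r)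
    (hd : ∀ c ∈ C, deg ω c ≤ d) {f : List α} {b y : α} (hb : ω b ≠ 0)
    (hr : ¬ LC C r (b :: f)) :
    m + ω y ≤ d ∧ ∀ v ∈ Bset C r (y :: b :: f), deg ω v ≤ d - (m + ω y) := by
  have hmb : m ≤ ω b := by
    rcases hW.2 b with h | h
    · exact absurd h.1 hb
    · exact h
  have h1 : ∀ v ∈ Bset C r (y :: b :: f), m + ω y + deg ω v ≤ d := by
    intro v hv
    rcases B_cons hv with h | ⟨h, -⟩
    · have h2 := B_deg hd h
      rw [deg_snoc] at h2
      omega
    · exact absurd h hr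
  obtain ⟨v0, hv0⟩ := bset_nonempty hS (y :: b :: f)
  have h2 := h1 v0 hv0
  refine ⟨by omega, fun v hv => ?_⟩
  have := h1 v hv
  omega

theorem coreP0 (hdeg : SDeg) : SCore := by
  classical
  intro α _ _ C l r ω m y hy hW hS h5
  by_cases hN : ∃ g f, Nset C l r g f = ∅
  · obtain ⟨g, f, hgf⟩ := hN
    left
    refine ⟨Aset C l g, Bset C r f, aset_finite hS g, bset_finite hS f, ?_⟩
    rw [← hgf]
    exact partP α C l r hS g f
  right
  have hne : ∀ g f, (Nset C l r g f).Nonempty := by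
    intro g f
    rw [Set.nonempty_iff_ne_empty]
    exact fun h => hN ⟨g, f, h⟩
  -- the maximal weight
  have hCne : C.Nonempty := by
    obtain ⟨x, p, -, hp, -⟩ := st_last hS.lmem hS.lne
    exact ⟨p, hp⟩
  obtain ⟨c0, hc0, hd⟩ := hS.fin.exists_maximalFor (deg ω) C hCne
  have hmax : ∀ c ∈ C, deg ω c ≤ deg ω c0 := by
    intro c hc
    rcases le_total (deg ω c) (deg ω c0) with h | h
    · exact h
    · exact hd hc h
  have hd5 := h5 c0 hc0
  set d := deg ω c0 with hdd
  -- the minimal degrees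
  have hσ : ∃ k, ∃ g, ∀ v ∈ Aset C l g, deg ω v ≤ k :=
    ⟨d, [y], fun v hv => by
      have := A_deg (g := []) hmax hv
      omega⟩
  have hτ : ∃ k, ∃ f, ∀ v ∈ Bset C r f, deg ω v ≤ k :=
    ⟨d, [y], fun v hv => by
      have := B_deg (f := []) hmax hv
      omega⟩
  set σ := Nat.find hσ with hσd
  set τ := Nat.find hτ with hτd
  have hσm : ∀ m < σ, ¬ ∃ g, ∀ v ∈ Aset C l g, deg ω v ≤ m := fun m hm => Nat.find_min hσ hm
  have hτm : ∀ m < τ, ¬ ∃ f, ∀ v ∈ Bset C r f, deg ω v ≤ m := fun m hm => Nat.find_min hτ hm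
  obtain ⟨g0, hg0⟩ := Nat.find_spec hσ
  obtain ⟨f0, hf0⟩ := Nat.find_spec hτ
  have hrc : ∀ g, (∀ v ∈ Aset C l g, deg ω v ≤ σ) → RC C l g := fun g hg =>
    min_rc hy hS hσm hg
  have hlc : ∀ f, (∀ v ∈ Bset C r f, deg ω v ≤ τ) → LC C r f := fun f hf =>
    min_lc hy hS hτm hf
  have hσd2 : σ + m + ω y ≤ d := by
    by_contra hcon
    refine hN ⟨[], [], N_empty hW hS fun g b hb => ?_⟩
    by_contra hr
    obtain ⟨h1, h2⟩ := two_A (y := y) hW hS hmax hb hr
    have h3 : σ ≤ d - (m + ω y) := Nat.find_min' hσ ⟨_, h2⟩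
    omega
  have hτd2 : τ + m + ω y ≤ d := by
    by_contra hcon
    refine hN ⟨[], [], N_empty' hW hS fun f b hb => ?_⟩
    by_contra hr
    obtain ⟨h1, h2⟩ := two_B (y := y) hW hS hmax hb hr
    have h3 : τ ≤ d - (m + ω y) := Nat.find_min' hτ ⟨_, h2⟩
    omega
  have key : ∀ g f, (∀ v ∈ Aset C l g, deg ω v ≤ σ) → (∀ v ∈ Bset C r f, deg ω v ≤ τ) →
      ∀ u ∈ Nset C l r g f, d + deg ω u ≤ σ + τ ∧ m ≤ deg ω u := by
    intro g f hg hf u hu
    refine ⟨?_, N_deg hW hS (hrc g hg) (hlc f hf) hu⟩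
    have ht := partP α C l r hS g f
    obtain ⟨s, hs, p, hp, hsp⟩ := hdeg α hS.fin.toFinset (aset_finite hS g).toFinset
      (bset_finite hS f).toFinset (nset_finite hS g f).toFinset ω y hy
      (by rw [Set.Finite.coe_toFinset]; exact hS.code)
      (by simpa only [Set.Finite.coe_toFinset] using ht) u
      ((Set.Finite.mem_toFinset _).2 hu) c0 ((Set.Finite.mem_toFinset _).2 hc0)
    rw [Set.Finite.mem_toFinset] at hs hp
    have h1 := hg s hs
    have h2 := hf p hp
    omega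
  obtain ⟨u0, hu0⟩ := hne g0 f0
  have hk0 := key g0 f0 hg0 hf0 u0 hu0
  have h3 : σ = 2 * m + ω y ∧ τ = 2 * m + ω y ∧ d = 3 * m + 2 * ω y := by omega
  obtain ⟨hs3, ht3, hd3⟩ := h3
  rw [hs3] at hrc
  rw [ht3] at hlc
  rw [hs3, ht3, hd3] at key
  refine ⟨hne, ⟨g0, ?_⟩, ⟨f0, ?_⟩, fun g hg => hrc g hg, fun f hf => hlc f hf, ?_, ?_, ?_⟩
  · intro v hv
    have := hg0 v hv
    omega
  · intro v hv
    have := hf0 v hv
    omega
  · intro g hg
    exact F1 hW h5 hg
  · intro f hf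
    exact F1' hW h5 hf
  · intro g hg f hf u hu
    have := key g f hg hf u hu
    omega

end Pool.Agent.H35.FS
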