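import Pool.Agent.H35.FS.Stm
import Pool.Agent.H35.FC.Base

/-!
# Contexts: basic lemmas and the partition (P1)
-/

set_option autoImplicit false

namespace Pool.Agent.H35.FS

open Pool.Agent.H35.FC (IsCode Facts Tiles star_nil star_append star_of_mem split cut)

variable {α : Type} {C : Set (List α)} {l r : List α}

/-- a nonempty word of `C*` ends with a codeword -/
theorem st_last {u : List α} (hu : u ∈ FC.Star C) (hn : u ≠ []) :
    ∃ x p, x ∈ FC.Star C ∧ p ∈ C ∧ u = x ++ p := by
  obtain ⟨L, hL, rfl⟩ := hu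
  rcases List.eq_nil_or_concat L with rfl | ⟨M, p, rfl⟩
  · simp at hn
  · exact ⟨M.flatten, p, ⟨M, fun c hc => hL c (by simp [hc]), rfl⟩, hL p (by simp), by simp⟩

/-- a nonempty word of `C*` begins with a codeword -/
theorem st_first {u : List α} (hu : u ∈ FC.Star C) (hn : u ≠ []) :
    ∃ s y, s ∈ C ∧ y ∈ FC.Star C ∧ u = s ++ y := by
  obtain ⟨L, hL, rfl⟩ := hu
  rcases L with _ | ⟨s, M⟩
  · simp at hn
  · exact ⟨s, M.flatten, hL s (by simp), ⟨M, fun c hc => hL c (by simp [hc]), rfl⟩, by simp⟩

/-- `[] ∈ Aset g` iff `RC g`. -/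
theorem nil_mem_aset (hS : Setup C l r) (g : List α) : [] ∈ Aset C l g ↔ RC C l g := by
  constructor
  · rintro ⟨x, p, hx, hp, h, hc⟩
    rw [List.append_nil] at hc
    rw [RC, h]
    exact star_append hx (star_of_mem hc)
  · intro h
    obtain ⟨x, p, hx, hp, e⟩ := st_last h (by simp [hS.lne])
    refine ⟨x, p, hx, ?_, e, by simpa using hp⟩
    rintro rfl
    exact hS.code.1 hp

/-- `[] ∈ Bset f` iff `LC f`. -/
theorem nil_mem_bset (hS : Setup C l r) (f : List α) : [] ∈ Bset C r f ↔ LC C r f := by
  constructor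
  · rintro ⟨s, y, hy, hs, h, hc⟩
    rw [List.nil_append] at hc
    rw [LC, h]
    exact star_append (star_of_mem hc) hy
  · intro h
    obtain ⟨s, y, hs, hy, e⟩ := st_first h (by simp [hS.rne])
    refine ⟨s, y, hy, ?_, e, by simpa using hs⟩
    rintro rfl
    exact hS.code.1 hs

/-- A word of `Aset g` makes the left context complete. -/
theorem rc_of_aset {g v : List α} (hv : v ∈ Aset C l g) : RC C l (g ++ v) := by
  obtain ⟨x, p, hx, hp, h, hc⟩ := hv
  rw [RC, ← List.append_assoc, h, List.append_assoc]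
  exact star_append hx (star_of_mem hc)

/-- A word of `Bset f` makes the right context complete. -/
theorem lc_of_bset {f v : List α} (hv : v ∈ Bset C r f) : LC C r (v ++ f) := by
  obtain ⟨s, y, hy, hs, h, hc⟩ := hv
  rw [LC, List.append_assoc, h, ← List.append_assoc]
  exact star_append (star_of_mem hc) hy

/-- `C*` keeps right contexts complete. -/
theorem lc_star {f c : List α} (hc : c ∈ FC.Star C) (hf : LC C r f) : LC C r (c ++ f) := by
  rw [LC, List.append_assoc]
  exact star_append hc hf

/-- `C*` keeps left contexts complete. -/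
theorem rc_star {g c : List α} (hg : RC C l g) (hc : c ∈ FC.Star C) : RC C l (g ++ c) := by
  rw [RC, ← List.append_assoc]
  exact star_append hg hc

/-- words of weight zero are in `C*` -/
theorem star_of_deg {ω : α → ℕ} {m : ℕ} (hW : Wt C ω m) {w : List α} (h : deg ω w = 0) :
    w ∈ FC.Star C := by
  induction w with
  | nil => exact star_nil
  | cons x w ih =>
    rw [deg_cons] at h
    have h1 : [x] ∈ C := by
      rcases hW.2 x with h2 | h2
      · exact h2.2
      · have := hW.1
        omega
    have h3 := star_append (star_of_mem h1) (ih (by omega))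
    simpa using h3

/-- a positive weight is at least `m` -/
theorem le_deg {ω : α → ℕ} {m : ℕ} (hW : Wt C ω m) {w : List α} (h : deg ω w ≠ 0) :
    m ≤ deg ω w := by
  induction w with
  | nil => exact absurd rfl h
  | cons x w ih =>
    rw [deg_cons] at h ⊢
    rcases hW.2 x with h2 | h2
    · have := ih (by omega)
      omega
    · omega

/-- A codeword over `u1 u2` excludes a cut inside. -/
theorem ncut (hS : Setup C l r) {g f u1 u2 : List α} (hu : u1 ++ u2 ∈ Nset C l r g f)
    (hr : RC C l (g ++ u1)) (hl : LC C r (u2 ++ f)) : False := by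
  obtain ⟨x, p, s, y, hx, hy, hp, hs, e1, e2, hc⟩ := hu
  have l1 := congrArg List.length e1
  have hp' : 0 < p.length := List.length_pos_iff.2 hp
  have hs' : 0 < s.length := List.length_pos_iff.2 hs
  have key := cut α C hS.code (l ++ (g ++ u1)) (u2 ++ f ++ r) x (p ++ (u1 ++ u2) ++ s) y
    hr hl hx hc hy (by
      calc l ++ (g ++ u1) ++ (u2 ++ f ++ r)
          = (l ++ g) ++ (u1 ++ (u2 ++ (f ++ r))) := by simp only [List.append_assoc]
        _ = (x ++ p) ++ (u1 ++ (u2 ++ (s ++ y))) := by rw [e1, e2]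
        _ = x ++ (p ++ (u1 ++ u2) ++ s ++ y) := by simp only [List.append_assoc])
  simp only [List.length_append] at l1 key
  omega

/-- A codeword over the end of the left context excludes a cut inside its completion. -/
theorem acut (hS : Setup C l r) {g v1 v2 t f : List α} (hv : v1 ++ v2 ∈ Aset C l g)
    (h2 : v2 ≠ []) (hr : RC C l (g ++ v1)) (hl : LC C r (v2 ++ t ++ f))
    (hl' : LC C r (t ++ f)) : False := by
  obtain ⟨x, p, hx, hp, e1, hc⟩ := hv
  have l1 := congrArg List.length e1
  have hp' : 0 < p.length := List.length_pos_iff.2 hp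
  have hs' : 0 < v2.length := List.length_pos_iff.2 h2
  have key := cut α C hS.code (l ++ (g ++ v1)) (v2 ++ t ++ f ++ r) x (p ++ (v1 ++ v2))
    (t ++ f ++ r) hr hl hx hc hl' (by
      calc l ++ (g ++ v1) ++ (v2 ++ t ++ f ++ r)
          = (l ++ g) ++ (v1 ++ (v2 ++ (t ++ (f ++ r)))) := by simp only [List.append_assoc]
        _ = (x ++ p) ++ (v1 ++ (v2 ++ (t ++ (f ++ r)))) := by rw [e1]
        _ = x ++ (p ++ (v1 ++ v2) ++ (t ++ f ++ r)) := by simp only [List.append_assoc])
  simp only [List.length_append] at l1 key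
  omega

/-- Existence: a word is covered or has a factorization. -/
theorem cover_or_fact (hS : Setup C l r) (g f w : List α) :
    w ∈ Nset C l r g f ∨ ∃ t, t ∈ Facts (Aset C l g) (FC.Star C) (Bset C r f) w := by
  have h2 : (l ++ g) ++ (w ++ (f ++ r)) ∈ FC.Star C := by
    have := hS.comp (g ++ (w ++ f))
    simpa only [List.append_assoc] using this
  rcases split α C _ _ h2 with ⟨hu, hv⟩ | ⟨X, p, s, Y, hX, hY, hp, hs, hps, e1, e2⟩
  · have hA : [] ∈ Aset C l g := (nil_mem_aset hS g).2 hu
    rcases split α C _ _ hv with ⟨hw, hf⟩ | ⟨X, p, s, Y, hX, hY, hp, hs, hps, e1, e2⟩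
    · right
      exact ⟨([], w, []), hA, hw, (nil_mem_bset hS f).2 hf, by simp⟩
    · right
      refine ⟨([], X, p), hA, hX, ⟨s, Y, hY, hs, e2, hps⟩, ?_⟩
      simp only [List.nil_append]
      exact e1.symm
  · rcases List.append_eq_append_iff.1 e2 with ⟨s', h3, h4⟩ | ⟨w', h3, h4⟩
    · -- s = w ++ s'
      by_cases hs' : s' = []
      · right
        subst hs'
        rw [List.append_nil] at h3
        rw [List.nil_append] at h4
        refine ⟨(w, [], []), ⟨X, p, hX, hp, e1, by rw [← h3]; exact hps⟩, star_nil,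
          (nil_mem_bset hS f).2 (by rw [LC, h4]; exact hY), by simp⟩
      · left
        refine ⟨X, p, s', Y, hX, hY, hp, hs', e1, h4, ?_⟩
        rw [List.append_assoc, ← h3]
        exact hps
    · -- w = s ++ w'
      right
      have hA : s ∈ Aset C l g := ⟨X, p, hX, hp, e1, hps⟩
      rw [h4] at hY
      rcases split α C _ _ hY with ⟨hw, hf⟩ | ⟨X', p', s', Y', hX', hY', hp', hs', hps', e1', e2'⟩
      · refine ⟨(s, w', []), hA, hw, (nil_mem_bset hS f).2 hf, ?_⟩
        simp only [List.append_nil]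
        exact h3.symm
      · refine ⟨(s, X', p'), hA, hX', ⟨s', Y', hY', hs', e2', hps'⟩, ?_⟩
        show s ++ (X' ++ p') = w
        rw [← e1', h3]

/-- A covered word has no factorization. -/
theorem cover_no_fact (hS : Setup C l r) {g f w : List α} (hw : w ∈ Nset C l r g f)
    {t : List α × List α × List α} (ht : t ∈ Facts (Aset C l g) (FC.Star C) (Bset C r f) w) :
    False := by
  obtain ⟨hA, hK, hB, hw'⟩ := ht
  refine ncut hS (g := g) (f := f) (u1 := t.1) (u2 := t.2.1 ++ t.2.2) (by rwa [hw'])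
    (rc_of_aset hA) ?_
  rw [List.append_assoc]
  exact lc_star hK (lc_of_bset hB)

/-- Comparison of two factorizations. -/
private theorem fact_le (hS : Setup C l r) {g f w : List α} {t t' : List α × List α × List α}
    (ht : t ∈ Facts (Aset C l g) (FC.Star C) (Bset C r f) w)
    (ht' : t' ∈ Facts (Aset C l g) (FC.Star C) (Bset C r f) w) :
    t'.1.length ≤ t.1.length ∧ t'.2.2.length ≤ t.2.2.length := by
  obtain ⟨⟨x, p, hx, hp, e1, c1⟩, hK, ⟨s, y, hy, hs, e2, c2⟩, hw⟩ := ht
  obtain ⟨⟨x', p', hx', hp', e1', c1'⟩, hK', ⟨s', y', hy', hs', e2', c2'⟩, hw'⟩ := ht'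
  have l1 : x'.length + p'.length = x.length + p.length := by
    have := congrArg List.length (e1'.symm.trans e1)
    simpa only [List.length_append] using this
  have l2 : s'.length + y'.length = s.length + y.length := by
    have := congrArg List.length (e2'.symm.trans e2)
    simpa only [List.length_append] using this
  have l3 : t.1.length + (t.2.1.length + t.2.2.length)
      = t'.1.length + (t'.2.1.length + t'.2.2.length) := by
    have := congrArg List.length (hw.trans hw'.symm)
    simpa only [List.length_append] using this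
  have l4 : 0 < p'.length := List.length_pos_iff.2 hp'
  have l5 : 0 < s'.length := List.length_pos_iff.2 hs'
  constructor
  · have h3 : (x ++ (p ++ t.1)) ++ (t.2.1 ++ ((t.2.2 ++ s) ++ y))
        = x' ++ ((p' ++ t'.1) ++ (t'.2.1 ++ ((t'.2.2 ++ s') ++ y'))) := by
      calc (x ++ (p ++ t.1)) ++ (t.2.1 ++ ((t.2.2 ++ s) ++ y))
          = (x ++ p) ++ (t.1 ++ (t.2.1 ++ t.2.2)) ++ (s ++ y) := by
            simp only [List.append_assoc]
        _ = (x' ++ p') ++ (t'.1 ++ (t'.2.1 ++ t'.2.2)) ++ (s' ++ y') := by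
            rw [← e1, ← e2, e1', e2', hw, hw']
        _ = _ := by simp only [List.append_assoc]
    have h4 := cut α C hS.code _ _ _ _ _ (star_append hx (star_of_mem c1))
      (star_append hK (star_append (star_of_mem c2) hy)) hx' c1'
      (star_append hK' (star_append (star_of_mem c2') hy')) h3
    simp only [List.length_append] at h4
    omega
  · have h3 : ((x ++ (p ++ t.1)) ++ t.2.1) ++ ((t.2.2 ++ s) ++ y)
        = ((x' ++ (p' ++ t'.1)) ++ t'.2.1) ++ ((t'.2.2 ++ s') ++ y') := by
      calc ((x ++ (p ++ t.1)) ++ t.2.1) ++ ((t.2.2 ++ s) ++ y)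
          = (x ++ p) ++ (t.1 ++ (t.2.1 ++ t.2.2)) ++ (s ++ y) := by
            simp only [List.append_assoc]
        _ = (x' ++ p') ++ (t'.1 ++ (t'.2.1 ++ t'.2.2)) ++ (s' ++ y') := by
            rw [← e1, ← e2, e1', e2', hw, hw']
        _ = _ := by simp only [List.append_assoc]
    have h4 := cut α C hS.code _ _ _ _ _
      (star_append (star_append hx (star_of_mem c1)) hK)
      (star_append (star_of_mem c2) hy)
      (star_append (star_append hx' (star_of_mem c1')) hK') c2' hy' h3
    simp only [List.length_append] at h4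
    omega

theorem fact_unique (hS : Setup C l r) {g f w : List α} {t t' : List α × List α × List α}
    (ht : t ∈ Facts (Aset C l g) (FC.Star C) (Bset C r f) w)
    (ht' : t' ∈ Facts (Aset C l g) (FC.Star C) (Bset C r f) w) : t = t' := by
  obtain ⟨h1, h2⟩ := fact_le hS ht ht'
  obtain ⟨h3, h4⟩ := fact_le hS ht' ht
  obtain ⟨u, c, v⟩ := t
  obtain ⟨u', c', v'⟩ := t'
  obtain ⟨hA, hK, hB, hw⟩ := ht
  obtain ⟨hA', hK', hB', hw'⟩ := ht'
  simp only at h1 h2 h3 h4 hw hw'
  obtain ⟨e1, e2⟩ := List.append_inj (hw.trans hw'.symm) (le_antisymm h3 h1)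
  obtain ⟨e3, e4⟩ := List.append_inj' e2 (le_antisymm h4 h2)
  rw [e1, e3, e4]

/-- Row 2: the partition (P1). -/
theorem partP : SPart := by
  intro α C l r hS g f w
  refine ⟨fun hw => ?_, fun hw => ?_⟩
  · ext t
    simp only [Set.mem_empty_iff_false, iff_false]
    exact fun ht => cover_no_fact hS hw ht
  · rcases cover_or_fact hS g f w with h | ⟨t, ht⟩
    · exact absurd h hw
    · exact ⟨t, ht, fun t' ht' => fact_unique hS ht' ht⟩

/-! ### Finiteness -/

theorem aset_finite (hS : Setup C l r) (g : List α) : (Aset C l g).Finite := by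
  refine (hS.fin.biUnion (t := fun c => {v | v ∈ c.tails}) (fun c _ => ?_)).subset ?_
  · exact (List.finite_toSet c.tails)
  · rintro v ⟨x, p, hx, hp, h, hc⟩
    refine Set.mem_biUnion hc ?_
    show v ∈ (p ++ v).tails
    rw [List.mem_tails]
    exact List.suffix_append p v

theorem bset_finite (hS : Setup C l r) (f : List α) : (Bset C r f).Finite := by
  refine (hS.fin.biUnion (t := fun c => {v | v ∈ c.inits}) (fun c _ => ?_)).subset ?_
  · exact (List.finite_toSet c.inits)
  · rintro v ⟨s, y, hy, hs, h, hc⟩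
    refine Set.mem_biUnion hc ?_
    show v ∈ (v ++ s).inits
    rw [List.mem_inits]
    exact List.prefix_append v s

theorem nset_finite (hS : Setup C l r) (g f : List α) : (Nset C l r g f).Finite := by
  refine (hS.fin.biUnion
    (t := fun c => {v | v ∈ (c.tails.map List.inits).flatten}) (fun c _ => ?_)).subset ?_
  · exact (List.finite_toSet _)
  · rintro u ⟨x, p, s, y, hx, hy, hp, hs, h1, h2, hc⟩
    refine Set.mem_biUnion hc ?_
    show u ∈ (((p ++ u ++ s).tails).map List.inits).flatten
    rw [List.mem_flatten]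
    refine ⟨(u ++ s).inits, List.mem_map.2 ⟨u ++ s, ?_, rfl⟩, ?_⟩
    · rw [List.mem_tails, List.append_assoc]
      exact List.suffix_append p _
    · rw [List.mem_inits]
      exact List.prefix_append u s

theorem aset_nonempty (hS : Setup C l r) (g : List α) : (Aset C l g).Nonempty := by
  have h2 : (l ++ g) ++ r ∈ FC.Star C := by
    have := hS.comp g
    simpa only [List.append_assoc] using this
  rcases split α C _ _ h2 with ⟨hu, hv⟩ | ⟨X, p, s, Y, hX, hY, hp, hs, hps, e1, e2⟩
  · exact ⟨[], (nil_mem_aset hS g).2 hu⟩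
  · exact ⟨s, X, p, hX, hp, e1, hps⟩

theorem bset_nonempty (hS : Setup C l r) (f : List α) : (Bset C r f).Nonempty := by
  rcases split α C _ _ (hS.comp f) with ⟨hu, hv⟩ | ⟨X, p, s, Y, hX, hY, hp, hs, hps, e1, e2⟩
  · exact ⟨[], (nil_mem_bset hS f).2 hv⟩
  · exact ⟨p, s, Y, hY, hs, e2, hps⟩

end Pool.Agent.H35.FS
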