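import Pool.Agent.H35.FS.Ctx

/-!
# The dichotomy
-/

set_option autoImplicit false

namespace Pool.Agent.H35.FS

open Pool.Agent.H35.FC (IsCode Facts Tiles star_nil star_append star_of_mem split cut)

variable {α : Type}

/-- the words in exactly one of the two sets -/
def SD (S S' : Set (List α)) : Set (List α) := {x | (x ∈ S ∧ x ∉ S') ∨ (x ∈ S' ∧ x ∉ S)}

theorem sd_comm (S S' : Set (List α)) : SD S S' = SD S' S := by
  ext x
  simp only [SD, Set.mem_ofPred_eq]
  tauto

theorem sd_nonempty {S S' : Set (List α)} (h : S ≠ S') : (SD S S').Nonempty := by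
  by_contra h1
  rw [Set.not_nonempty_iff_eq_empty] at h1
  apply h
  ext x
  have h2 : x ∉ SD S S' := by rw [h1]; exact Set.notMem_empty x
  simp only [SD, Set.mem_ofPred_eq] at h2
  tauto

theorem exists_short {D : Set (List α)} (h : D.Nonempty) :
    ∃ x ∈ D, ∀ y ∈ D, x.length ≤ y.length := by
  obtain ⟨m, hm, h1⟩ := (InvImage.wf List.length Nat.lt_wfRel.wf).has_min D h
  exact ⟨m, hm, fun y hy => Nat.le_of_not_lt (h1 y hy)⟩

theorem eq_of_le {x c y x0 d0 : List α} (h : x ++ (c ++ y) = x0 ++ d0)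
    (h1 : x0.length ≤ x.length) (h2 : d0.length ≤ y.length) : x = x0 ∧ y = d0 := by
  have h3 := congrArg List.length h
  simp only [List.length_append] at h3
  have h4 : c.length = 0 := by omega
  rw [List.length_eq_zero_iff] at h4
  subst h4
  rw [List.nil_append] at h
  exact List.append_inj h (by simp at h3; omega)

/-- the alternating sum over the four pairs, as a case distinction -/
theorem four {S S' K P P' : Set (List α)} {x0 d0 : List α} (hK : [] ∈ K)
    (hx : x0 ∈ S) (hx' : x0 ∉ S') (hd : d0 ∈ P) (hd' : d0 ∉ P')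
    (mx : ∀ x ∈ SD S S', x0.length ≤ x.length) (md : ∀ y ∈ SD P P', d0.length ≤ y.length)
    (u1 : ∃! t, t ∈ Facts S K P (x0 ++ d0)) (u2 : ∃! t, t ∈ Facts S K P' (x0 ++ d0))
    (u3 : ∃! t, t ∈ Facts S' K P (x0 ++ d0)) (u4 : ∃! t, t ∈ Facts S' K P' (x0 ++ d0)) :
    False := by
  have e1 : ∀ t, t ∈ Facts S K P (x0 ++ d0) → t = (x0, [], d0) := fun t ht =>
    u1.unique ht ⟨hx, hK, hd, by simp⟩
  obtain ⟨⟨x, c, y⟩, ⟨h1, h2, h3, h4⟩, -⟩ := u2
  obtain ⟨⟨x', c', y'⟩, ⟨h1', h2', h3', h4'⟩, -⟩ := u3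
  simp only at h1 h2 h3 h4 h1' h2' h3' h4'
  have hy : y ∉ P := by
    intro h
    have h5 := e1 (x, c, y) ⟨h1, h2, h, h4⟩
    simp only [Prod.mk.injEq] at h5
    exact hd' (h5.2.2 ▸ h3)
  have hx2 : x' ∉ S := by
    intro h
    have h5 := e1 (x', c', y') ⟨h, h2', h3', h4'⟩
    simp only [Prod.mk.injEq] at h5
    exact hx' (h5.1 ▸ h1')
  have ly : d0.length ≤ y.length := md y (Or.inr ⟨h3, hy⟩)
  have lx : x0.length ≤ x'.length := mx x' (Or.inr ⟨h1', hx2⟩)
  -- `y'` is in `P'`, otherwise the lengths force `x' = x0`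
  have hy' : y' ∈ P' := by
    by_contra h
    have h5 := eq_of_le h4' lx (md y' (Or.inl ⟨h3', h⟩))
    exact hx' (h5.1 ▸ h1')
  have hx3 : x ∈ S' := by
    by_contra h
    have h5 := eq_of_le h4 (mx x (Or.inl ⟨h1, h⟩)) ly
    exact hd' (h5.2 ▸ h3)
  have h6 := u4.unique (y₁ := (x, c, y)) (y₂ := (x', c', y')) ⟨hx3, h2, h3, h4⟩
    ⟨h1', h2', hy', h4'⟩
  simp only [Prod.mk.injEq] at h6
  exact hx2 (h6.1 ▸ h1)

/-- a word of `C*` which completes a complete left context is empty -/
theorem star_A {C : Set (List α)} {l r : List α} (hS : Setup C l r) {g v : List α}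
    (h : RC C l g) (hv : v ∈ FC.Star C) (hj : v ∈ Aset C l g) : v = [] := by
  by_contra hne
  have h0 : LC C r [] := by simpa [LC] using hS.rmem
  refine acut hS (g := g) (v1 := []) (v2 := v) (t := []) (f := []) (by simpa using hj) hne
    (by simpa using h) ?_ (by simpa using h0)
  have := lc_star hv h0
  simpa using this

theorem star_B {C : Set (List α)} {l r : List α} (hS : Setup C l r) {f v : List α}
    (h : LC C r f) (hv : v ∈ FC.Star C) (hj : v ∈ Bset C r f) : v = [] := by
  obtain ⟨s, y, hy, hs, h1, h2⟩ := hj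
  have h5 := cut α C hS.code v (f ++ r) [] (v ++ s) y hv h star_nil h2 hy (by rw [h1]; simp)
  have h6 : 0 < s.length := List.length_pos_iff.2 hs
  simp only [List.length_append, List.length_nil] at h5
  exact List.length_eq_zero_iff.1 (by omega)

/-- Row 7: the dichotomy. -/
theorem dichP : SDich := by
  intro α C l r ω m y k hW hs hh
  by_contra hcon
  rw [not_or] at hcon
  obtain ⟨hB, hA⟩ := hcon
  push Not at hB hA
  obtain ⟨f, hf, f', hf', hB⟩ := hB
  obtain ⟨g, hg, g', hg', hA⟩ := hA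
  obtain ⟨x0, hx0, mx⟩ := exists_short (sd_nonempty hA)
  obtain ⟨d0, hd0, md⟩ := exists_short (sd_nonempty hB)
  have hxr : m ≤ deg ω x0 := by
    apply le_deg hW
    intro h0
    have hst := star_of_deg hW h0
    have he : x0 = [] := by
      rcases hx0 with h | h
      · exact star_A hs (hh.rc g hg) hst h.1
      · exact star_A hs (hh.rc g' hg') hst h.1
    subst he
    rcases hx0 with h | h
    · exact h.2 ((nil_mem_aset hs g').2 (hh.rc g' hg'))
    · exact h.2 ((nil_mem_aset hs g).2 (hh.rc g hg))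
  have hdr : m ≤ deg ω d0 := by
    apply le_deg hW
    intro h0
    have hst := star_of_deg hW h0
    have he : d0 = [] := by
      rcases hd0 with h | h
      · exact star_B hs (hh.lc f hf) hst h.1
      · exact star_B hs (hh.lc f' hf') hst h.1
    subst he
    rcases hd0 with h | h
    · exact h.2 ((nil_mem_bset hs f').2 (hh.lc f' hf'))
    · exact h.2 ((nil_mem_bset hs f).2 (hh.lc f hf))
  have hdeg : m < deg ω (x0 ++ d0) := by
    rw [deg_append]
    have := hW.1
    omega
  have huniq : ∀ g ∈ Gmin C l ω k, ∀ f ∈ Fmin C r ω k,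
      ∃! t, t ∈ Facts (Aset C l g) (FC.Star C) (Bset C r f) (x0 ++ d0) := by
    intro g hg f hf
    apply (partP α C l r hs g f (x0 ++ d0)).2
    intro h
    have := hh.n1 g hg f hf _ h
    omega
  have mx' : ∀ x ∈ SD (Aset C l g') (Aset C l g), x0.length ≤ x.length := by
    rw [sd_comm]; exact mx
  have md' : ∀ x ∈ SD (Bset C r f') (Bset C r f), d0.length ≤ x.length := by
    rw [sd_comm]; exact md
  rcases hx0 with hx | hx <;> rcases hd0 with hd | hd
  · exact four star_nil hx.1 hx.2 hd.1 hd.2 mx md (huniq g hg f hf) (huniq g hg f' hf')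
      (huniq g' hg' f hf) (huniq g' hg' f' hf')
  · exact four star_nil hx.1 hx.2 hd.1 hd.2 mx md' (huniq g hg f' hf') (huniq g hg f hf)
      (huniq g' hg' f' hf') (huniq g' hg' f hf)
  · exact four star_nil hx.1 hx.2 hd.1 hd.2 mx' md (huniq g' hg' f hf) (huniq g' hg' f' hf')
      (huniq g hg f hf) (huniq g hg f' hf')
  · exact four star_nil hx.1 hx.2 hd.1 hd.2 mx' md' (huniq g' hg' f' hf') (huniq g' hg' f hf)
      (huniq g hg f' hf') (huniq g hg f hf)

end Pool.Agent.H35.FS
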