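import Pool.Agent.H35.FS.Ctx

/-!
# The end, if all minimal right contexts have the same completions
-/

set_option autoImplicit false

namespace Pool.Agent.H35.FS

open Pool.Agent.H35.FC (IsCode Facts Tiles star_nil star_append star_of_mem split cut)

theorem fac {α : Type} {C : Set (List α)} {l r : List α} (hS : Setup C l r) {f w : List α}
    (hf : LC C r f) (hw : LC C r (w ++ f)) :
    ∃ c ∈ FC.Star C, ∃ β ∈ Bset C r f, c ++ β = w := by
  rw [LC, List.append_assoc] at hw
  rcases split α C w (f ++ r) hw with ⟨h1, _⟩ | ⟨X, p, s, Y, hX, hY, hp, hs, hc, e1, e2⟩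
  · exact ⟨w, h1, [], (nil_mem_bset hS f).2 hf, by simp⟩
  · exact ⟨X, hX, p, ⟨s, Y, hY, hs, e2, hc⟩, e1.symm⟩

theorem endP : SEnd := by
  intro α C l r ω m b k hb hW hS hH hB
  obtain ⟨g, hg⟩ := hH.gne
  obtain ⟨f, hf⟩ := hH.fne
  obtain ⟨u, hu⟩ := hH.ne g f
  have hrg : RC C l g := hH.rc g hg
  have hlf : LC C r f := hH.lc f hf
  have hdu : deg ω u = m := hH.n1 g hg f hf u hu
  have hnA : [] ∈ Aset C l g := (nil_mem_aset hS g).2 hrg
  -- the set `T`
  let T : Set (List α) := {w | ∃ c ∈ FC.Star C, ∃ β ∈ Bset C r f, c ++ β = w}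
  have hT1 : ∀ w, w ∈ T → LC C r (w ++ f) := by
    rintro w ⟨c, hc, β, hβ, rfl⟩
    rw [List.append_assoc]
    exact lc_star hc (lc_of_bset hβ)
  have hT2 : ∀ w, LC C r (w ++ f) → w ∈ T := fun w hw => fac hS hlf hw
  -- `(A)`
  have hN : ∀ w, u ++ b :: w ∉ Nset C l r g f := by
    intro w hw
    have h1 := hH.n1 g hg f hf _ hw
    rw [deg_append, deg_cons] at h1
    omega
  have hpre : ∀ α' ∈ Aset C l g, ∀ u', u = α' ++ u' → α' = [] := by
    intro α' hα u' e
    have hd : deg ω α' + deg ω u' = m := by rw [← deg_append, ← e, hdu]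
    rcases Nat.eq_zero_or_pos (deg ω α') with h0 | h0
    · by_contra hne
      refine acut hS (g := g) (v1 := []) (v2 := α') (t := []) (f := f) (by simpa using hα)
        hne (by simpa using hrg) ?_ (by simpa using hlf)
      rw [List.append_nil]
      exact lc_star (star_of_deg hW h0) hlf
    · exfalso
      have h1 : m ≤ deg ω α' := le_deg hW (by omega)
      have h0' : deg ω u' = 0 := by omega
      exact ncut hS (g := g) (f := f) (u1 := α') (u2 := u') (by rw [← e]; exact hu)
        (rc_of_aset hα) (lc_star (star_of_deg hW h0') hlf)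
  let S' : Set (List α) := {v | u ++ b :: v ∈ Aset C l g}
  have hA1 : ∀ w, u ++ b :: w ∉ T → (∃ t, t ∈ Facts S' (FC.Star C) (Bset C r f) w) := by
    intro w hw
    obtain ⟨⟨x, c, β⟩, ⟨h1, h2, h3, h4⟩, -⟩ := (partP α C l r hS g f (u ++ b :: w)).2 (hN w)
    simp only at h1 h2 h3 h4
    rcases List.append_eq_append_iff.1 h4 with ⟨z, e1, e2⟩ | ⟨z, e1, e2⟩
    · -- `u = x ++ z`
      exfalso
      have hx := hpre x h1 z e1
      subst hx
      exact hw ⟨c, h2, β, h3, by simpa using h4⟩
    · -- `x = u ++ z`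
      rcases z with _ | ⟨b', z⟩
      · exfalso
        have hx := hpre x h1 [] (by simpa using e1.symm)
        subst hx
        exact hw ⟨c, h2, β, h3, by simpa using h4⟩
      · rw [List.cons_append, List.cons.injEq] at e2
        obtain ⟨rfl, e2⟩ := e2
        refine ⟨⟨z, c, β⟩, ?_, h2, h3, e2.symm⟩
        change u ++ b :: z ∈ Aset C l g
        rw [← e1]; exact h1
  have hlift : ∀ w v c β, (v, c, β) ∈ Facts S' (FC.Star C) (Bset C r f) w →
      (u ++ b :: v, c, β) ∈ Facts (Aset C l g) (FC.Star C) (Bset C r f) (u ++ b :: w) := by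
    rintro w v c β ⟨h1, h2, h3, h4⟩
    refine ⟨h1, h2, h3, ?_⟩
    simp only at h4 ⊢
    rw [← h4]; simp
  have hA2 : ∀ w t t', t ∈ Facts S' (FC.Star C) (Bset C r f) w →
      t' ∈ Facts S' (FC.Star C) (Bset C r f) w → t = t' := by
    rintro w ⟨v, c, β⟩ ⟨v', c', β'⟩ h h'
    have hun := (partP α C l r hS g f (u ++ b :: w)).2 (hN w)
    have := hun.unique (hlift w v c β h) (hlift w v' c' β' h')
    simp only [Prod.mk.injEq, List.append_cancel_left_eq, List.cons.injEq, true_and] at this ⊢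
    exact this
  -- `(B)`
  have hBB : ∀ w, w ∉ T → u ++ b :: w ∉ T := by
    intro w hw hw'
    have h1 : ¬ LC C r (w ++ f) := fun h => hw (hT2 w h)
    have h2 : b :: (w ++ f) ∈ Fmin C r ω k := hH.f1' _ h1
    have h3 : Bset C r (b :: (w ++ f)) = Bset C r f := hB _ h2 _ hf
    have h4 : u ∈ Nset C l r g (b :: (w ++ f)) := by
      by_contra hcon
      obtain ⟨t, ht, -⟩ := (partP α C l r hS g (b :: (w ++ f)) u).2 hcon
      rw [h3] at ht
      have := (partP α C l r hS g f u).1 hu
      rw [this] at ht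
      exact ht
    refine ncut hS (g := g) (f := b :: (w ++ f)) (u1 := []) (u2 := u) (by simpa using h4)
      (by simpa using hrg) ?_
    have := hT1 _ hw'
    rwa [List.append_assoc, List.cons_append] at this
  have hfinS : S'.Finite := by
    refine Set.Finite.preimage ?_ (aset_finite hS g)
    intro x _ y _ hxy
    simpa using hxy
  have hfinP : (Bset C r f).Finite := bset_finite hS f
  by_cases h0 : [] ∈ S'
  · refine ⟨S', Bset C r f, hfinS, hfinP, fun w => ⟨fun h => h.elim, fun _ => ?_⟩⟩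
    have hex : ∃ t, t ∈ Facts S' (FC.Star C) (Bset C r f) w := by
      by_cases hw : w ∈ T
      · obtain ⟨c, hc, β, hβ, e⟩ := hw
        exact ⟨([], c, β), h0, hc, hβ, by simpa using e⟩
      · exact hA1 w (hBB w hw)
    obtain ⟨t, ht⟩ := hex
    exact ⟨t, ht, fun t' ht' => hA2 w t' t ht' ht⟩
  · -- `(C)`
    have hnR : ¬ RC C l (g ++ u) := fun h =>
      ncut hS (g := g) (f := f) (u1 := u) (u2 := []) (by simpa using hu) h
        (by simpa using hlf)
    have hRb : RC C l (g ++ (u ++ [b])) := by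
      rw [← List.append_assoc]
      exact hH.rc _ (hH.f1 _ hnR)
    have hC : ∀ w ∈ T, ∀ t, t ∉ Facts S' (FC.Star C) (Bset C r f) w := by
      rintro w hw ⟨v, c, β⟩ ⟨h1, h2, h3, h4⟩
      simp only at h1 h2 h3 h4
      have hv : v ≠ [] := fun h => h0 (h ▸ h1)
      refine acut hS (g := g) (v1 := u ++ [b]) (v2 := v) (t := c ++ β) (f := f) ?_ hv hRb
        ?_ (by rw [List.append_assoc]; exact lc_star h2 (lc_of_bset h3))
      · have h1' : u ++ b :: v ∈ Aset C l g := h1
        simpa using h1'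
      · rw [h4]
        exact hT1 w hw
    refine ⟨insert [] S', Bset C r f, hfinS.insert _, hfinP, fun w =>
      ⟨fun h => h.elim, fun _ => ?_⟩⟩
    by_cases hw : w ∈ T
    · have hw2 := hw
      obtain ⟨c, hc, β, hβ, e⟩ := hw2
      refine ⟨([], c, β), ⟨Set.mem_insert _ _, hc, hβ, by simpa using e⟩, ?_⟩
      rintro ⟨v', c', β'⟩ ⟨h1, h2, h3, h4⟩
      simp only at h1 h2 h3 h4
      rcases h1 with rfl | h1
      · have hNw : w ∉ Nset C l r g f := by
          intro hcon
          have he := (partP α C l r hS g f w).1 hcon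
          have hm : (([] : List α), c, β) ∈ Facts (Aset C l g) (FC.Star C) (Bset C r f) w :=
            ⟨hnA, hc, hβ, by simpa using e⟩
          rw [he] at hm
          exact hm
        exact ((partP α C l r hS g f w).2 hNw).unique ⟨hnA, h2, h3, h4⟩
          ⟨hnA, hc, hβ, by simpa using e⟩
      · exact absurd (⟨h1, h2, h3, h4⟩ : (v', c', β') ∈ Facts S' (FC.Star C) (Bset C r f) w)
          (hC w hw _)
    · obtain ⟨t, ht⟩ := hA1 w (hBB w hw)
      refine ⟨t, ⟨Set.mem_insert_of_mem _ ht.1, ht.2.1, ht.2.2.1, ht.2.2.2⟩, ?_⟩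
      rintro ⟨v', c', β'⟩ ⟨h1, h2, h3, h4⟩
      simp only at h1 h2 h3 h4
      rcases h1 with rfl | h1
      · exact absurd ⟨c', h2, β', h3, by simpa using h4⟩ hw
      · exact hA2 w _ _ ⟨h1, h2, h3, h4⟩ ht

end Pool.Agent.H35.FS
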