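import Pool.Agent.H35.FS.Ctx

/-!
# A finite code which contains a letter is synchronized
-/

set_option autoImplicit false

namespace Pool.Agent.H35.FS

open Pool.Agent.H35.FC (IsCode star_nil star_append star_of_mem split cut rep_star)

theorem rep_of_suffix {α : Type} {a : α} {K : ℕ} {u X p : List α}
    (h : u ++ List.replicate K a = X ++ p) (hp : p.length ≤ K) : p = List.replicate p.length a := by
  rw [List.append_eq_append_iff] at h
  apply List.eq_replicate_of_mem
  intro b hb
  rcases h with ⟨t, h1, h2⟩ | ⟨t, h1, h2⟩
  · exact List.eq_of_mem_replicate (n := K) (by rw [h2]; exact List.mem_append_right _ hb)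
  · have h3 := congrArg List.length h2
    rw [List.length_append, List.length_replicate] at h3
    have h4 : t = [] := List.length_eq_zero_iff.1 (by omega)
    subst h4
    rw [List.nil_append] at h2
    exact List.eq_of_mem_replicate (n := K) (by rw [← h2]; exact hb)

theorem rep_of_prefix {α : Type} {a : α} {K : ℕ} {v s Y : List α}
    (h : List.replicate K a ++ v = s ++ Y) (hs : s.length ≤ K) : s = List.replicate s.length a := by
  rw [List.append_eq_append_iff] at h
  apply List.eq_replicate_of_mem
  intro b hb
  rcases h with ⟨t, h1, h2⟩ | ⟨t, h1, h2⟩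
  · have h3 := congrArg List.length h1
    rw [List.length_append, List.length_replicate] at h3
    have h4 : t = [] := List.length_eq_zero_iff.1 (by omega)
    subst h4
    rw [List.append_nil] at h1
    exact List.eq_of_mem_replicate (n := K) (by rw [← h1]; exact hb)
  · exact List.eq_of_mem_replicate (n := K) (by rw [h1]; exact List.mem_append_left _ hb)

/-- A finite code which contains a letter is synchronized. -/
theorem sync_of_letter {α : Type} {C : Set (List α)} (hfin : C.Finite) (hC : IsCode C) {a : α}
    (ha : [a] ∈ C) : ∃ x ∈ FC.Star C, ∃ y ∈ FC.Star C, ∀ u v : List α,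
    u ++ x ++ y ++ v ∈ FC.Star C → u ++ x ∈ FC.Star C ∧ y ++ v ∈ FC.Star C := by
  obtain ⟨K, hK⟩ : ∃ K : ℕ, ∀ c ∈ C, c.length ≤ K := by
    obtain ⟨K, hK⟩ := (hfin.image List.length).bddAbove
    exact ⟨K, fun c hc => hK ⟨c, hc, rfl⟩⟩
  refine ⟨List.replicate K a, rep_star ha K, List.replicate K a, rep_star ha K, fun u v h => ?_⟩
  rw [List.append_assoc] at h
  rcases split α C _ _ h with h1 | ⟨X, p, s, Y, hX, hY, hp, hs, hc, e1, e2⟩
  · exact h1
  · exfalso
    have h2 := hK _ hc
    rw [List.length_append] at h2
    have h3 := rep_of_suffix e1 (by omega)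
    have h4 := rep_of_prefix e2 (by omega)
    have h5 : 0 < p.length := List.length_pos_iff.2 hp
    have h6 : 0 < s.length := List.length_pos_iff.2 hs
    have h7 := hC.2 [p ++ s] (List.replicate (p.length + s.length) [a]) (by simpa using hc)
      (fun c hc => by rw [List.eq_of_mem_replicate hc]; exact ha) (by
        rw [List.flatten_replicate_singleton, List.replicate_add, ← h3, ← h4]
        simp)
    have h8 := congrArg List.length h7
    simp only [List.length_replicate, List.length_singleton] at h8
    omega

end Pool.Agent.H35.FS
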