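import Pool.Agent.H35.FS.Stm

/-!
# The mirror image
-/

set_option autoImplicit false

namespace Pool.Agent.H35.FS

open Pool.Agent.H35.FC (IsCode Facts Tiles)

section Rev

variable {α : Type}

private lemma mem_rev (C : Set (List α)) (w : List α) :
    w ∈ List.reverse '' C ↔ w.reverse ∈ C := by
  constructor
  · rintro ⟨v, hv, rfl⟩
    rwa [List.reverse_reverse]
  · intro h
    exact ⟨w.reverse, h, List.reverse_reverse w⟩

private lemma rev_rev (C : Set (List α)) : List.reverse '' (List.reverse '' C) = C := by
  ext w
  rw [mem_rev, mem_rev, List.reverse_reverse]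

private lemma star_rev_of (C : Set (List α)) (w : List α) (h : w ∈ FC.Star C) :
    w.reverse ∈ FC.Star (List.reverse '' C) := by
  obtain ⟨L, hL, rfl⟩ := h
  refine ⟨(L.map List.reverse).reverse, ?_, ?_⟩
  · intro c hc
    rw [List.mem_reverse, List.mem_map] at hc
    obtain ⟨d, hd, rfl⟩ := hc
    exact ⟨d, hL d hd, rfl⟩
  · rw [List.reverse_flatten]

private lemma mem_star_rev (C : Set (List α)) (w : List α) :
    w ∈ FC.Star (List.reverse '' C) ↔ w.reverse ∈ FC.Star C := by
  constructor
  · intro h
    have := star_rev_of _ _ h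
    rwa [rev_rev] at this
  · intro h
    have := star_rev_of _ _ h
    rwa [List.reverse_reverse] at this

private lemma code_rev {C : Set (List α)} (h : IsCode C) : IsCode (List.reverse '' C) := by
  refine ⟨?_, ?_⟩
  · rw [mem_rev]
    exact h.1
  · intro L M hL hM he
    have h1 : ∀ N : List (List α), (∀ c ∈ N, c ∈ List.reverse '' C) →
        ∀ c ∈ (N.map List.reverse).reverse, c ∈ C := by
      intro N hN c hc
      rw [List.mem_reverse, List.mem_map] at hc
      obtain ⟨d, hd, rfl⟩ := hc
      exact (mem_rev C d).1 (hN d hd)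
    have h2 : (L.map List.reverse).reverse.flatten = (M.map List.reverse).reverse.flatten := by
      rw [← List.reverse_flatten, ← List.reverse_flatten, he]
    have h3 := h.2 _ _ (h1 L hL) (h1 M hM) h2
    have h4 := List.reverse_injective h3
    exact List.map_injective_iff.2 List.reverse_injective h4

private lemma rc_rev (C : Set (List α)) (r g : List α) :
    RC (List.reverse '' C) r.reverse g ↔ LC C r g.reverse := by
  unfold RC LC
  rw [mem_star_rev, List.reverse_append, List.reverse_reverse]

private lemma lc_rev (C : Set (List α)) (l f : List α) :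
    LC (List.reverse '' C) l.reverse f ↔ RC C l f.reverse := by
  unfold RC LC
  rw [mem_star_rev, List.reverse_append, List.reverse_reverse]

private lemma aset_rev_of {C : Set (List α)} {l g v : List α} (h : v ∈ Aset C l g) :
    v.reverse ∈ Bset (List.reverse '' C) l.reverse g.reverse := by
  obtain ⟨x, p, hx, hp, he, hc⟩ := h
  refine ⟨p.reverse, x.reverse, star_rev_of _ _ hx, ?_, ?_, ?_⟩
  · simpa using hp
  · have h1 := congrArg List.reverse he
    rwa [List.reverse_append, List.reverse_append] at h1
  · rw [mem_rev, List.reverse_append, List.reverse_reverse, List.reverse_reverse]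
    exact hc

private lemma bset_rev_of {C : Set (List α)} {r f v : List α} (h : v ∈ Bset C r f) :
    v.reverse ∈ Aset (List.reverse '' C) r.reverse f.reverse := by
  obtain ⟨s, y, hy, hs, he, hc⟩ := h
  refine ⟨y.reverse, s.reverse, star_rev_of _ _ hy, ?_, ?_, ?_⟩
  · simpa using hs
  · have h1 := congrArg List.reverse he
    rwa [List.reverse_append, List.reverse_append] at h1
  · rw [mem_rev, List.reverse_append, List.reverse_reverse, List.reverse_reverse]
    exact hc

private lemma mem_aset_rev (C : Set (List α)) (r g v : List α) :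
    v ∈ Aset (List.reverse '' C) r.reverse g ↔ v.reverse ∈ Bset C r g.reverse := by
  constructor
  · intro h
    have := aset_rev_of h
    rwa [rev_rev, List.reverse_reverse] at this
  · intro h
    have := bset_rev_of h
    rwa [List.reverse_reverse, List.reverse_reverse] at this

private lemma mem_bset_rev (C : Set (List α)) (l f v : List α) :
    v ∈ Bset (List.reverse '' C) l.reverse f ↔ v.reverse ∈ Aset C l f.reverse := by
  constructor
  · intro h
    have := bset_rev_of h
    rwa [rev_rev, List.reverse_reverse] at this
  · intro h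
    have := aset_rev_of h
    rwa [List.reverse_reverse, List.reverse_reverse] at this

private lemma nset_rev_of {C : Set (List α)} {l r g f u : List α} (h : u ∈ Nset C l r g f) :
    u.reverse ∈ Nset (List.reverse '' C) r.reverse l.reverse f.reverse g.reverse := by
  obtain ⟨x, p, s, y, hx, hy, hp, hs, he, he', hc⟩ := h
  refine ⟨y.reverse, s.reverse, p.reverse, x.reverse, star_rev_of _ _ hy, star_rev_of _ _ hx,
    ?_, ?_, ?_, ?_, ?_⟩
  · simpa using hs
  · simpa using hp
  · have h1 := congrArg List.reverse he'
    rwa [List.reverse_append, List.reverse_append] at h1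
  · have h1 := congrArg List.reverse he
    rwa [List.reverse_append, List.reverse_append] at h1
  · rw [mem_rev, List.reverse_append, List.reverse_append, List.reverse_reverse,
      List.reverse_reverse, List.reverse_reverse, ← List.append_assoc]
    exact hc

private lemma mem_nset_rev (C : Set (List α)) (l r g f u : List α) :
    u ∈ Nset (List.reverse '' C) r.reverse l.reverse g f ↔
      u.reverse ∈ Nset C l r f.reverse g.reverse := by
  constructor
  · intro h
    have := nset_rev_of h
    rwa [rev_rev, List.reverse_reverse, List.reverse_reverse] at this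
  · intro h
    have := nset_rev_of h
    rwa [List.reverse_reverse, List.reverse_reverse, List.reverse_reverse] at this

private lemma tiles_rev {C S P : Set (List α)} (h : Tiles (List.reverse '' C) S P ∅) :
    Tiles C (List.reverse '' P) (List.reverse '' S) ∅ := by
  intro w
  refine ⟨fun hw => absurd hw (Set.notMem_empty w), fun _ => ?_⟩
  obtain ⟨⟨x, y, z⟩, ht, huniq⟩ := (h w.reverse).2 (Set.notMem_empty _)
  obtain ⟨hx, hy, hz, he⟩ := ht
  simp only at hx hy hz he
  refine ⟨(z.reverse, y.reverse, x.reverse), ⟨⟨z, hz, rfl⟩, (mem_star_rev C y).1 hy,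
    ⟨x, hx, rfl⟩, ?_⟩, ?_⟩
  · simp only
    have h1 := congrArg List.reverse he
    rw [List.reverse_append, List.reverse_append, List.reverse_reverse] at h1
    rw [← h1, List.append_assoc]
  · rintro ⟨x', y', z'⟩ ⟨hx', hy', hz', he'⟩
    simp only at hx' hy' hz' he'
    have h1 : (z'.reverse, y'.reverse, x'.reverse) = (x, y, z) := by
      apply huniq
      refine ⟨(mem_rev S z').1 hz', (mem_star_rev C _).2 (by rwa [List.reverse_reverse]),
        (mem_rev P x').1 hx', ?_⟩
      simp only
      rw [← he', List.reverse_append, List.reverse_append, List.append_assoc]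
    simp only [Prod.mk.injEq] at h1 ⊢
    obtain ⟨h2, h3, h4⟩ := h1
    rw [← h2, ← h3, ← h4]
    simp only [List.reverse_reverse, and_self]

private lemma deg_rev (ω : α → ℕ) (w : List α) : deg ω w.reverse = deg ω w := by
  unfold deg
  rw [List.map_reverse, List.sum_reverse]

private lemma gmin_rev (C : Set (List α)) (r : List α) (ω : α → ℕ) (k : ℕ) (g : List α) :
    g ∈ Gmin (List.reverse '' C) r.reverse ω k ↔ g.reverse ∈ Fmin C r ω k := by
  constructor
  · intro h v hv
    have := h v.reverse ((mem_aset_rev C r g _).2 (by rwa [List.reverse_reverse]))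
    rwa [deg_rev] at this
  · intro h v hv
    have := h v.reverse ((mem_aset_rev C r g v).1 hv)
    rwa [deg_rev] at this

private lemma fmin_rev (C : Set (List α)) (l : List α) (ω : α → ℕ) (k : ℕ) (f : List α) :
    f ∈ Fmin (List.reverse '' C) l.reverse ω k ↔ f.reverse ∈ Gmin C l ω k := by
  constructor
  · intro h v hv
    have := h v.reverse ((mem_bset_rev C l f _).2 (by rwa [List.reverse_reverse]))
    rwa [deg_rev] at this
  · intro h v hv
    have := h v.reverse ((mem_bset_rev C l f v).1 hv)
    rwa [deg_rev] at this

end Rev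

/-- The mirror image of the situation. -/
theorem revP : SRev := by
  intro α C l r ω m y k hS hH
  refine ⟨⟨hS.fin.image _, code_rev hS.code, ?_, ?_, ?_, ?_, ?_⟩,
    ⟨?_, ?_, ?_, ?_, ?_, ?_, ?_, ?_⟩, ?_, ?_⟩
  · rw [mem_star_rev, List.reverse_reverse]
    exact hS.rmem
  · rw [mem_star_rev, List.reverse_reverse]
    exact hS.lmem
  · simpa using hS.rne
  · simpa using hS.lne
  · intro w
    rw [mem_star_rev]
    have := hS.comp w.reverse
    simpa only [List.reverse_append, List.reverse_reverse, List.append_assoc] using this
  · intro g f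
    obtain ⟨u, hu⟩ := hH.ne f.reverse g.reverse
    exact ⟨u.reverse, (mem_nset_rev C l r g f _).2 (by rwa [List.reverse_reverse])⟩
  · obtain ⟨f, hf⟩ := hH.fne
    exact ⟨f.reverse, (gmin_rev C r ω k _).2 (by rwa [List.reverse_reverse])⟩
  · obtain ⟨g, hg⟩ := hH.gne
    exact ⟨g.reverse, (fmin_rev C l ω k _).2 (by rwa [List.reverse_reverse])⟩
  · intro g hg
    exact (rc_rev C r g).2 (hH.lc _ ((gmin_rev C r ω k g).1 hg))
  · intro f hf
    exact (lc_rev C l f).2 (hH.rc _ ((fmin_rev C l ω k f).1 hf))
  · intro g hg
    rw [gmin_rev, List.reverse_append]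
    exact hH.f1' g.reverse (fun h => hg ((rc_rev C r g).2 h))
  · intro f hf
    rw [fmin_rev, List.reverse_cons]
    exact hH.f1 f.reverse (fun h => hf ((lc_rev C l f).2 h))
  · intro g hg f hf u hu
    rw [← deg_rev]
    exact hH.n1 f.reverse ((fmin_rev C l ω k f).1 hf) g.reverse ((gmin_rev C r ω k g).1 hg)
      u.reverse ((mem_nset_rev C l r g f u).1 hu)
  · intro h f hf f' hf'
    ext v
    rw [mem_bset_rev, mem_bset_rev,
      h f.reverse ((fmin_rev C l ω k f).1 hf) f'.reverse ((fmin_rev C l ω k f').1 hf')]
  · intro S P h
    exact tiles_rev h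

end Pool.Agent.H35.FS
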