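import Pool.Agent.H35.FC.Stm

/-!
# Finite maximal synchronized codes: contexts and weights

The contexts are `l ++ g` on the left and `f ++ r` on the right, where `l`, `r` are words of `C*`
with `l w r ∈ C*` for every word `w`. The degree of a word is the sum of the weights of its letters.
-/

set_option autoImplicit false

namespace Pool.Agent.H35.FS

open Pool.Agent.H35.FC (IsCode Facts Tiles gf SGf)

section
variable {α : Type}

/-- `C` is a finite code and every word is completed by `l` and `r`. -/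
structure Setup (C : Set (List α)) (l r : List α) : Prop where
  fin : C.Finite
  code : IsCode C
  lmem : l ∈ FC.Star C
  rmem : r ∈ FC.Star C
  lne : l ≠ []
  rne : r ≠ []
  comp : ∀ w : List α, l ++ (w ++ r) ∈ FC.Star C

/-- The left context `l g` is complete. -/
def RC (C : Set (List α)) (l g : List α) : Prop := l ++ g ∈ FC.Star C

/-- The right context `f r` is complete. -/
def LC (C : Set (List α)) (r f : List α) : Prop := f ++ r ∈ FC.Star C

/-- The words which complete a codeword that has begun inside the left context. -/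
def Aset (C : Set (List α)) (l g : List α) : Set (List α) :=
  {v | ∃ x p : List α, x ∈ FC.Star C ∧ p ≠ [] ∧ l ++ g = x ++ p ∧ p ++ v ∈ C}

/-- The words from which a codeword goes on into the right context. -/
def Bset (C : Set (List α)) (r f : List α) : Set (List α) :=
  {v | ∃ s y : List α, y ∈ FC.Star C ∧ s ≠ [] ∧ f ++ r = s ++ y ∧ v ++ s ∈ C}

/-- The words covered by one codeword which meets both contexts. -/
def Nset (C : Set (List α)) (l r g f : List α) : Set (List α) :=
  {u | ∃ x p s y : List α, x ∈ FC.Star C ∧ y ∈ FC.Star C ∧ p ≠ [] ∧ s ≠ [] ∧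
    l ++ g = x ++ p ∧ f ++ r = s ++ y ∧ p ++ u ++ s ∈ C}

/-- The weight of a word. -/
def deg (ω : α → ℕ) (w : List α) : ℕ := (w.map ω).sum

theorem deg_append (ω : α → ℕ) (u v : List α) : deg ω (u ++ v) = deg ω u + deg ω v := by
  simp [deg]

theorem deg_cons (ω : α → ℕ) (b : α) (v : List α) : deg ω (b :: v) = ω b + deg ω v := by
  simp [deg]

/-- The left contexts whose completions have weight at most `k`. -/
def Gmin (C : Set (List α)) (l : List α) (ω : α → ℕ) (k : ℕ) : Set (List α) :=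
  {g | ∀ v ∈ Aset C l g, deg ω v ≤ k}

/-- The right contexts with the same property. -/
def Fmin (C : Set (List α)) (r : List α) (ω : α → ℕ) (k : ℕ) : Set (List α) :=
  {f | ∀ v ∈ Bset C r f, deg ω v ≤ k}

/-- Letters of weight zero are in `C`, the weights of all other letters are at least `m`. -/
def Wt (C : Set (List α)) (ω : α → ℕ) (m : ℕ) : Prop :=
  0 < m ∧ ∀ x, (ω x = 0 ∧ [x] ∈ C) ∨ m ≤ ω x

/-- What is left after the degree arguments: `d = 3 m + 2 ω y`, `σ = τ = 2 m + ω y`. -/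
structure Hyp (C : Set (List α)) (l r : List α) (ω : α → ℕ) (m : ℕ) (y : α) (k : ℕ) :
    Prop where
  ne : ∀ g f, (Nset C l r g f).Nonempty
  gne : (Gmin C l ω k).Nonempty
  fne : (Fmin C r ω k).Nonempty
  rc : ∀ g ∈ Gmin C l ω k, RC C l g
  lc : ∀ f ∈ Fmin C r ω k, LC C r f
  f1 : ∀ g, ¬ RC C l g → g ++ [y] ∈ Gmin C l ω k
  f1' : ∀ f, ¬ LC C r f → y :: f ∈ Fmin C r ω k
  n1 : ∀ g ∈ Gmin C l ω k, ∀ f ∈ Fmin C r ω k, ∀ u ∈ Nset C l r g f, deg ω u = m

end

/-- Row 1: completeness. -/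
def SMax : Prop := ∀ (α : Type) [Fintype α] [DecidableEq α] (C : Set (List α)),
  IsCode C → (∀ D : Set (List α), IsCode D → C ⊆ D → D = C) →
  ∀ w : List α, ∃ u v, u ++ (w ++ v) ∈ FC.Star C

/-- Row 2: the partition (P1). -/
def SPart : Prop := ∀ (α : Type) (C : Set (List α)) (l r : List α), Setup C l r →
  ∀ g f, Tiles C (Aset C l g) (Bset C r f) (Nset C l r g f)

/-- Row 5: the degree inequality, from `SGf`. -/
def SDeg : Prop := ∀ (α : Type) [Fintype α] [DecidableEq α] (C S P N : Finset (List α))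
  (ω : α → ℕ) (b : α), ω b ≠ 0 → IsCode (C : Set (List α)) → Tiles (C : Set (List α)) S P N →
  ∀ u ∈ N, ∀ c ∈ C, ∃ s ∈ S, ∃ p ∈ P, deg ω c + deg ω u ≤ deg ω s + deg ω p

/-- Row 6: the degree arguments (C1) - (C5). -/
def SCore : Prop := ∀ (α : Type) [Fintype α] [DecidableEq α] (C : Set (List α)) (l r : List α)
  (ω : α → ℕ) (m : ℕ) (y : α), ω y ≠ 0 → Wt C ω m → Setup C l r →
  (∀ w ∈ C, deg ω w ≤ 3 * m + 2 * ω y) →
  (∃ S P : Set (List α), S.Finite ∧ P.Finite ∧ Tiles C S P ∅) ∨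
    Hyp C l r ω m y (2 * m + ω y)

/-- Row 7: the dichotomy (C6). -/
def SDich : Prop := ∀ (α : Type) (C : Set (List α)) (l r : List α) (ω : α → ℕ) (m : ℕ) (y : α)
  (k : ℕ), Wt C ω m → Setup C l r → Hyp C l r ω m y k →
  (∀ f ∈ Fmin C r ω k, ∀ f' ∈ Fmin C r ω k, Bset C r f = Bset C r f') ∨
    (∀ g ∈ Gmin C l ω k, ∀ g' ∈ Gmin C l ω k, Aset C l g = Aset C l g')

/-- Row 8: the end (C7). -/
def SEnd : Prop := ∀ (α : Type) (C : Set (List α)) (l r : List α) (ω : α → ℕ) (m : ℕ) (y : α)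
  (k : ℕ), ω y ≠ 0 → Wt C ω m → Setup C l r → Hyp C l r ω m y k →
  (∀ f ∈ Fmin C r ω k, ∀ f' ∈ Fmin C r ω k, Bset C r f = Bset C r f') →
  ∃ S P : Set (List α), S.Finite ∧ P.Finite ∧ Tiles C S P ∅

/-- Row 9: the mirror image. -/
def SRev : Prop := ∀ (α : Type) (C : Set (List α)) (l r : List α) (ω : α → ℕ) (m : ℕ) (y : α)
  (k : ℕ), Setup C l r → Hyp C l r ω m y k →
  Setup (List.reverse '' C) r.reverse l.reverse ∧
  Hyp (List.reverse '' C) r.reverse l.reverse ω m y k ∧
  ((∀ g ∈ Gmin C l ω k, ∀ g' ∈ Gmin C l ω k, Aset C l g = Aset C l g') →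
    ∀ f ∈ Fmin (List.reverse '' C) l.reverse ω k, ∀ f' ∈ Fmin (List.reverse '' C) l.reverse ω k,
      Bset (List.reverse '' C) l.reverse f = Bset (List.reverse '' C) l.reverse f') ∧
  ∀ S P : Set (List α), Tiles (List.reverse '' C) S P ∅ →
    Tiles C (List.reverse '' P) (List.reverse '' S) ∅

end Pool.Agent.H35.FS
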